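import Mathlib

set_option autoImplicit false

/-! # Linear algebra of exponent vectors, colorings of vanishing sums -/

namespace Pool.Agent.Y215.SP

open Finset

/-- the vectors orthogonal to `W` -/
def Orth {r : ℕ} (W : Set (Fin r → ℤ)) : Set (Fin r → ℤ) := {l | ∀ w ∈ W, ∑ i, l i * w i = 0}

theorem common_den {κ : Type} [Finite κ] (c : κ → ℚ) :
    ∃ (N : ℕ) (m : κ → ℤ), 1 ≤ N ∧ ∀ a, (N : ℚ) * c a = m a := by
  classical
  have := Fintype.ofFinite κ
  refine ⟨∏ a, (c a).den, fun a => (∏ b ∈ Finset.univ.erase a, ((c b).den : ℤ)) * (c a).num,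
    Nat.succ_le_of_lt (Finset.prod_pos fun a _ => (c a).den_pos), fun a => ?_⟩
  rw [← Finset.mul_prod_erase _ _ (Finset.mem_univ a)]
  push_cast
  have h := Rat.mul_den_eq_num (c a)
  calc ((c a).den : ℚ) * (∏ b ∈ Finset.univ.erase a, ((c b).den : ℚ)) * c a =
      (∏ b ∈ Finset.univ.erase a, ((c b).den : ℚ)) * (c a * (c a).den) := by ring
    _ = _ := by rw [h]

theorem dichot {r : ℕ} (W : Set (Fin r → ℤ)) (x : Fin r → ℤ) :
    (∃ l ∈ Orth W, ∑ i, l i * x i ≠ 0) ∨
      ∃ E : ℕ, 1 ≤ E ∧ (E : ℤ) • x ∈ AddSubgroup.closure W := by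
  classical
  let q : (Fin r → ℤ) → (Fin r → ℚ) := fun w i => (w i : ℚ)
  by_cases hx : q x ∈ Submodule.span ℚ (q '' W)
  · right
    obtain ⟨m, c, g, hg⟩ := Submodule.mem_span_set'.1 hx
    obtain ⟨N, z, hN, hz⟩ := common_den c
    choose w hw hwq using fun a => (g a).2
    refine ⟨N, hN, ?_⟩
    have h1 : (N : ℤ) • x = ∑ a, z a • w a := by
      funext i
      have h2 := congrFun hg i
      simp only [Finset.sum_apply, Pi.smul_apply, smul_eq_mul] at h2 ⊢
      have h3 : ((N : ℤ) : ℚ) * (x i : ℚ) = ∑ a, (z a : ℚ) * (w a i : ℚ) := by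
        have h4 : (q x i) = (x i : ℚ) := rfl
        rw [← h4, ← h2, Finset.mul_sum]
        refine Finset.sum_congr rfl fun a _ => ?_
        rw [← hz a, ← hwq a]
        push_cast
        ring
      exact_mod_cast h3
    rw [h1]
    exact sum_mem fun a _ => zsmul_mem (AddSubgroup.subset_closure (hw a)) _
  · left
    obtain ⟨f, hfx, hf⟩ := Submodule.exists_le_ker_of_notMem hx
    obtain ⟨N, z, hN, hz⟩ := common_den (fun i : Fin r => f (Pi.single i 1))
    have hfe : ∀ w : Fin r → ℤ, (N : ℚ) * f (q w) = ((∑ i, z i * w i : ℤ) : ℚ) := by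
      intro w
      have h1 : q w = ∑ i, (w i : ℚ) • (Pi.single i 1 : Fin r → ℚ) := by
        funext j
        simp [q, Finset.sum_apply, Pi.single_apply]
      rw [h1, map_sum, Finset.mul_sum]
      push_cast
      refine Finset.sum_congr rfl fun i _ => ?_
      rw [map_smul, smul_eq_mul, ← hz i]
      ring
    refine ⟨z, ?_, ?_⟩
    · intro w hw
      have h1 : f (q w) = 0 := hf (Submodule.subset_span ⟨w, hw, rfl⟩)
      have h2 := hfe w
      rw [h1, mul_zero] at h2
      exact_mod_cast h2.symm
    · intro h0
      have h2 := hfe x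
      rw [h0, Int.cast_zero] at h2
      have hN0 : (N : ℚ) ≠ 0 := by
        have : N ≠ 0 := by omega
        exact_mod_cast this
      exact hfx ((mul_eq_zero.1 h2).resolve_left hN0)

/-- a generic vector of exponents -/
theorem exists_gen {r : ℕ} (W : Set (Fin r → ℤ)) (hW : ∀ w ∈ W, ∑ i, w i = 0) :
    ∃ l : Fin r → ℕ, (fun i => (l i : ℤ)) ∈ Orth W ∧
      ∀ j j', l j = l j' → ∀ l' ∈ Orth W, l' j = l' j' := by
  classical
  -- maximal number of values
  let P : ℕ → Prop := fun a => ∃ l ∈ Orth W, (Finset.univ.image l).card = a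
  have hP0 : ∃ a, P a := ⟨_, fun _ => 0, fun w _ => by simp, rfl⟩
  have hb : ∀ a, P a → a ≤ r := by
    rintro a ⟨l, -, rfl⟩
    exact Finset.card_image_le.trans (by simp)
  obtain ⟨a, ⟨l, hl, hla⟩, hmax⟩ : ∃ a, P a ∧ ∀ b, P b → b ≤ a := by
    obtain ⟨a0, ha0⟩ := hP0
    refine ⟨Nat.findGreatest P r, ?_, fun b hb' => ?_⟩
    · exact Nat.findGreatest_spec (hb a0 ha0) ha0
    · exact Nat.le_findGreatest (hb b hb') hb'
  have hgen : ∀ j j', l j = l j' → ∀ l' ∈ Orth W, l' j = l' j' := by
    intro j j' hjj l' hl'
    by_contra hne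
    set B : ℤ := 2 * ∑ i, |l' i| + 1 with hB
    have hB' : ∀ i i', |l' i - l' i'| < B := by
      intro i i'
      have h1 : |l' i| ≤ ∑ i, |l' i| :=
        Finset.single_le_sum (f := fun i => |l' i|) (fun _ _ => abs_nonneg _) (Finset.mem_univ i)
      have h2 : |l' i'| ≤ ∑ i, |l' i| :=
        Finset.single_le_sum (f := fun i => |l' i|) (fun _ _ => abs_nonneg _) (Finset.mem_univ i')
      have h3 := abs_sub (l' i) (l' i')
      omega
    set l2 : Fin r → ℤ := fun i => B * l i + l' i with hl2
    have hl2O : l2 ∈ Orth W := by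
      intro w hw
      rw [hl2]
      simp only [add_mul, Finset.sum_add_distrib]
      rw [hl' w hw, add_zero]
      have := hl w hw
      simp_rw [mul_assoc]
      rw [← Finset.mul_sum, this, mul_zero]
    have himp : ∀ i i', l2 i = l2 i' → l i = l i' := by
      intro i i' h
      rw [hl2] at h
      simp only at h
      by_contra hne'
      have h1 : B * (l i - l i') = l' i' - l' i := by linarith
      have h2 := hB' i' i
      rw [← h1, abs_mul] at h2
      have h3 : 1 ≤ |l i - l i'| := Int.one_le_abs (sub_ne_zero.2 hne')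
      have h4 : |B| = B := abs_of_nonneg (by
        have : 0 ≤ ∑ i, |l' i| := Finset.sum_nonneg fun i _ => abs_nonneg _
        omega)
      rw [h4] at h2
      have h5 : 0 < B := by
        have : 0 ≤ ∑ i, |l' i| := Finset.sum_nonneg fun i _ => abs_nonneg _
        omega
      nlinarith
    -- the image of `l2` is larger
    have hcard : (Finset.univ.image l).card < (Finset.univ.image l2).card := by
      have hsec : ∀ v ∈ Finset.univ.image l2, ∃ i, l2 i = v := by
        intro v hv
        obtain ⟨i, _, hi⟩ := Finset.mem_image.1 hv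
        exact ⟨i, hi⟩
      let φ : ℤ → ℤ := fun v => if h : ∃ i, l2 i = v then l h.choose else 0
      have hφ : ∀ i, φ (l2 i) = l i := by
        intro i
        have hex : ∃ i', l2 i' = l2 i := ⟨i, rfl⟩
        show (if h : ∃ i', l2 i' = l2 i then l h.choose else 0) = l i
        rw [dif_pos hex]
        exact himp _ _ hex.choose_spec
      have himg : Finset.univ.image l = (Finset.univ.image l2).image φ := by
        rw [Finset.image_image]
        refine Finset.image_congr fun i _ => ?_
        exact (hφ i).symm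
      rw [himg]
      refine lt_of_le_of_ne Finset.card_image_le fun hcard => ?_
      have hinj := Finset.card_image_iff.1 hcard
      have h1 : l2 j = l2 j' := by
        apply hinj
        · simp
        · simp
        · rw [hφ, hφ, hjj]
      rw [hl2] at h1
      simp only at h1
      rw [hjj] at h1
      apply hne
      linarith
    have := hmax _ ⟨l2, hl2O, rfl⟩
    omega
  -- shift
  obtain ⟨s, hs⟩ : ∃ s : ℕ, ∀ i, 0 ≤ l i + s := by
    refine ⟨∑ i, (l i).natAbs, fun i => ?_⟩
    have h1 : (l i).natAbs ≤ ∑ i, (l i).natAbs :=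
      Finset.single_le_sum (f := fun i => (l i).natAbs) (fun _ _ => Nat.zero_le _)
        (Finset.mem_univ i)
    omega
  have hcast : ∀ i, (((l i + s).toNat : ℕ) : ℤ) = l i + s := fun i => Int.toNat_of_nonneg (hs i)
  refine ⟨fun i => (l i + s).toNat, ?_, ?_⟩
  · intro w hw
    simp_rw [hcast, add_mul]
    rw [Finset.sum_add_distrib, hl w hw, ← Finset.mul_sum, hW w hw]
    ring
  · intro j j' h l' hl'
    refine hgen j j' ?_ l' hl'
    have h1 := hcast j
    have h2 := hcast j'
    have h3 : (((l j + s).toNat : ℕ) : ℤ) = (((l j' + s).toNat : ℕ) : ℤ) := by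
      exact_mod_cast h
    rw [h1, h2] at h3
    linarith

/-- a partition of a vanishing sum into minimal vanishing sums -/
theorem coloring {S L : Type} [Fintype S] [DecidableEq S] [Field L] (x : S → L)
    (h0 : ∑ α, x α = 0) :
    ∃ f : S → S, ∀ c, ∑ α ∈ Finset.univ.filter (fun α => f α = c), x α = 0 ∧
      ∀ A ⊆ Finset.univ.filter (fun α => f α = c), A.Nonempty →
        A ≠ Finset.univ.filter (fun α => f α = c) → ∑ α ∈ A, x α ≠ 0 := by
  classical
  have key : ∀ (k : ℕ) (T : Finset S), T.card = k → ∑ α ∈ T, x α = 0 →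
      ∃ f : S → S, (∀ α ∈ T, f α ∈ T) ∧ ∀ c, ∑ α ∈ T.filter (fun α => f α = c), x α = 0 ∧
        ∀ A ⊆ T.filter (fun α => f α = c), A.Nonempty → A ≠ T.filter (fun α => f α = c) →
          ∑ α ∈ A, x α ≠ 0 := by
    intro k
    induction k using Nat.strong_induction_on with
    | _ k ih =>
      intro T hT hsum
      rcases T.eq_empty_or_nonempty with rfl | hne
      · refine ⟨id, fun α h => (Finset.notMem_empty α h).elim, fun c => ⟨by simp, ?_⟩⟩
        intro A hA hAne
        rw [Finset.filter_empty, Finset.subset_empty] at hA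
        exact absurd hA hAne.ne_empty
      · obtain ⟨A0, hA0, hmin⟩ := Finset.exists_min_image
          (T.powerset.filter (fun A => A.Nonempty ∧ ∑ α ∈ A, x α = 0)) Finset.card
          ⟨T, by simp [hne, hsum]⟩
        rw [Finset.mem_filter, Finset.mem_powerset] at hA0
        obtain ⟨hA0T, hA0ne, hA0s⟩ := hA0
        obtain ⟨c0, hc0⟩ := hA0ne
        have hT' : (T \ A0).card < k := by
          rw [← hT]
          refine Finset.card_lt_card ⟨Finset.sdiff_subset, fun h => ?_⟩
          have := h (hA0T hc0)
          rw [Finset.mem_sdiff] at this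
          exact this.2 hc0
        have hs' : ∑ α ∈ T \ A0, x α = 0 := by
          have := Finset.sum_sdiff hA0T (f := x)
          rw [hA0s, add_zero, hsum] at this
          exact this
        obtain ⟨f', hf'1, hf'2⟩ := ih _ hT' (T \ A0) rfl hs'
        refine ⟨fun α => if α ∈ A0 then c0 else f' α, ?_, ?_⟩
        · intro α hα
          by_cases h : α ∈ A0
          · simp only [h, if_true]
            exact hA0T hc0
          · simp only [h, if_false]
            exact (Finset.mem_sdiff.1 (hf'1 α (Finset.mem_sdiff.2 ⟨hα, h⟩))).1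
        · intro c
          by_cases hc : c = c0
          · have hfil : T.filter (fun α => (if α ∈ A0 then c0 else f' α) = c) = A0 := by
              ext α
              rw [Finset.mem_filter]
              constructor
              · rintro ⟨hαT, h⟩
                by_contra hα
                rw [if_neg hα, hc] at h
                have := hf'1 α (Finset.mem_sdiff.2 ⟨hαT, hα⟩)
                rw [h, Finset.mem_sdiff] at this
                exact this.2 hc0
              · intro hα
                exact ⟨hA0T hα, by rw [if_pos hα, hc]⟩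
            rw [hfil]
            refine ⟨hA0s, fun A hA hAne hAA hAs => ?_⟩
            have h1 := hmin A (by
              rw [Finset.mem_filter, Finset.mem_powerset]
              exact ⟨hA.trans hA0T, hAne, hAs⟩)
            exact hAA (Finset.eq_of_subset_of_card_le hA h1)
          · have hfil : T.filter (fun α => (if α ∈ A0 then c0 else f' α) = c) =
                (T \ A0).filter (fun α => f' α = c) := by
              ext α
              rw [Finset.mem_filter, Finset.mem_filter, Finset.mem_sdiff]
              constructor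
              · rintro ⟨hαT, h⟩
                by_cases hα : α ∈ A0
                · rw [if_pos hα] at h
                  exact absurd h.symm hc
                · rw [if_neg hα] at h
                  exact ⟨⟨hαT, hα⟩, h⟩
              · rintro ⟨⟨hαT, hα⟩, h⟩
                exact ⟨hαT, by rw [if_neg hα]; exact h⟩
            rw [hfil]
            exact hf'2 c
  obtain ⟨f, -, hf⟩ := key _ Finset.univ rfl h0
  exact ⟨f, hf⟩

/-- codes for the elements of small sets -/
theorem exists_enc {γ : Type} (S : Set γ) (B : ℕ) (hB : 1 ≤ B) (hS : S.encard ≤ B) :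
    ∃ e : γ → Fin B, ∀ x ∈ S, ∀ y ∈ S, e x = e y → x = y := by
  classical
  have hfin : S.Finite := Set.finite_of_encard_le_coe hS
  have := hfin.fintype
  have hc : Fintype.card S ≤ Fintype.card (Fin B) := by
    rw [Fintype.card_fin]
    have h1 : S.encard = (Fintype.card S : ℕ∞) := by
      rw [Set.encard_eq_coe_toFinset_card, Set.toFinset_card]
    rw [h1] at hS
    exact_mod_cast hS
  obtain ⟨g⟩ := Function.Embedding.nonempty_of_card_le hc
  refine ⟨fun x => if h : x ∈ S then g ⟨x, h⟩ else ⟨0, hB⟩, fun x hx y hy h => ?_⟩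
  simp only [hx, hy, dif_pos] at h
  have := g.injective h
  exact congrArg Subtype.val this

end Pool.Agent.Y215.SP
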