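import Mathlib
import Pool.Agent.TH409.SH.Loc

set_option autoImplicit false

/-! # The Frobenius step for integral linear forms at points of small height -/

namespace Pool.Agent.Y215.SP

open Finset Height Height.AdmissibleAbsValues Pool.Agent.TH409.SH

/-- the sum of `p`-th powers and the `p`-th power of the sum are congruent modulo `p` -/
theorem sum_pow_prime {R ι : Type} [CommRing R] (p : ℕ) (hp : p.Prime) (s : Finset ι) (f : ι → R) :
    ∃ r : R, (∑ i ∈ s, f i) ^ p = ∑ i ∈ s, f i ^ p + p * r := by
  classical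
  induction s using Finset.induction_on with
  | empty => exact ⟨0, by simp [hp.ne_zero]⟩
  | insert a s ha ih =>
    obtain ⟨r, hr⟩ := ih
    obtain ⟨r', hr'⟩ := exists_add_pow_prime_eq hp (f a) (∑ i ∈ s, f i)
    refine ⟨r + f a * (∑ i ∈ s, f i) * r', ?_⟩
    rw [Finset.sum_insert ha, Finset.sum_insert ha, hr', hr]
    ring

theorem int_pow_prime (p : ℕ) (hp : p.Prime) (c : ℤ) : ∃ m : ℤ, c ^ p = c + p * m := by
  have := Fact.mk hp
  have h := ZMod.pow_card (c : ZMod p)
  have h2 : ((c ^ p - c : ℤ) : ZMod p) = 0 := by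
    push_cast
    rw [h, sub_self]
  obtain ⟨m, hm⟩ := (ZMod.intCast_zmod_eq_zero_iff_dvd _ p).1 h2
  exact ⟨m, by linarith⟩

/-- in a commutative ring, a vanishing integral combination gives a congruence for the `p`-th
powers -/
theorem comb_pow_prime {R ι : Type} [CommRing R] (p : ℕ) (hp : p.Prime) (s : Finset ι)
    (c : ι → ℤ) (z : ι → R) (h0 : ∑ i ∈ s, (c i : R) * z i = 0) :
    ∃ r : R, ∑ i ∈ s, (c i : R) * z i ^ p = p * r := by
  obtain ⟨r, hr⟩ := sum_pow_prime p hp s (fun i => (c i : R) * z i)
  choose m hm using fun i => int_pow_prime p hp (c i)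
  rw [h0, zero_pow hp.ne_zero] at hr
  refine ⟨-(r + ∑ i ∈ s, (m i : R) * z i ^ p), ?_⟩
  have h1 : ∑ i ∈ s, ((c i : R) * z i) ^ p =
      ∑ i ∈ s, (c i : R) * z i ^ p + p * ∑ i ∈ s, (m i : R) * z i ^ p := by
    rw [Finset.mul_sum, ← Finset.sum_add_distrib]
    refine Finset.sum_congr rfl fun i _ => ?_
    have h2 : ((c i : R)) ^ p = c i + p * m i := by
      have := congrArg (fun a : ℤ => (a : R)) (hm i)
      push_cast at this
      exact this
    rw [mul_pow, h2]
    ring
  rw [h1] at hr
  linear_combination -hr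

variable {K : Type} [Field K]

theorem nonarch_int {w : AbsoluteValue K ℝ} (hw : IsNonarchimedean w) (m : ℤ) : w (m : K) ≤ 1 :=
  hw.apply_intCast_le_one

/-- the bound at a nonarchimedean place -/
theorem nonarch_bound {w : AbsoluteValue K ℝ} (hw : IsNonarchimedean w) (p : ℕ) (hp : p.Prime)
    {ι : Type} [Fintype ι] [Nonempty ι] (c : ι → ℤ) (z : ι → K)
    (h0 : ∑ i, (c i : K) * z i = 0) :
    w (∑ i, (c i : K) * z i ^ p) ≤ w (p : K) * (⨆ i, w (z i)) ^ p := by
  classical
  obtain ⟨i0, hi0⟩ : ∃ i0, ∀ i, w (z i) ≤ w (z i0) := Finite.exists_max _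
  have hsup : (⨆ i, w (z i)) = w (z i0) :=
    le_antisymm (ciSup_le hi0) (le_ciSup (f := fun i => w (z i)) (Finite.bddAbove_range _) i0)
  rw [hsup]
  by_cases hz : z i0 = 0
  · have hz' : ∀ i, z i = 0 := by
      intro i
      have := hi0 i
      rw [hz, map_zero] at this
      exact w.eq_zero.1 (le_antisymm this (w.nonneg _))
    have h1 : ∑ i, (c i : K) * z i ^ p = 0 := by
      refine Finset.sum_eq_zero fun i _ => ?_
      rw [hz' i, zero_pow hp.ne_zero, mul_zero]
    rw [h1, map_zero]
    positivity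
  · have hpos : 0 < w (z i0) := w.pos hz
    let O : Subring K :=
      { carrier := {x | w x ≤ 1}
        mul_mem' := by
          intro a b ha hb
          show w (a * b) ≤ 1
          rw [map_mul]
          exact mul_le_one₀ ha (w.nonneg _) hb
        one_mem' := by simp
        add_mem' := by
          intro a b ha hb
          exact (hw a b).trans (max_le ha hb)
        zero_mem' := by simp
        neg_mem' := by
          intro a ha
          show w (-a) ≤ 1
          rw [map_neg_eq_map]
          exact ha }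
    let y : ι → O := fun i => ⟨z i / z i0, by
      show w (z i / z i0) ≤ 1
      rw [map_div₀]
      exact div_le_one_of_le₀ (hi0 i) (w.nonneg _)⟩
    have hy0 : ∑ i, (c i : O) * y i = 0 := by
      apply Subtype.ext
      push_cast
      rw [show (∑ i, (c i : K) * (z i / z i0)) = (∑ i, (c i : K) * z i) / z i0 by
        rw [Finset.sum_div]
        exact Finset.sum_congr rfl fun i _ => by ring]
      rw [h0, zero_div]
    obtain ⟨r, hr⟩ := comb_pow_prime p hp Finset.univ c y hy0
    have h1 := congrArg (fun a : O => (a : K)) hr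
    simp only [y] at h1
    push_cast at h1
    have h2 : ∑ i, (c i : K) * z i ^ p = (p : K) * (r : K) * z i0 ^ p := by
      rw [← h1, Finset.sum_mul]
      refine Finset.sum_congr rfl fun i _ => ?_
      rw [div_pow, mul_assoc, div_mul_cancel₀ _ (pow_ne_zero _ hz)]
    rw [h2, map_mul, map_mul, map_pow]
    have h3 : w (r : K) ≤ 1 := r.2
    calc w (p : K) * w (r : K) * w (z i0) ^ p ≤ w (p : K) * 1 * w (z i0) ^ p := by gcongr
      _ = w (p : K) * w (z i0) ^ p := by ring

/-- **Frobenius step.** If an integral linear form with sum of absolute values of the coefficients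
at most `L` vanishes at `z` but not at the `p`-th power of `z`, then the height of `z` is bounded
from below. -/
theorem frob_step [AdmissibleAbsValues K] (p : ℕ) (hp : p.Prime) (hpK : (p : K) ≠ 0)
    {ι : Type} [Fintype ι] (c : ι → ℤ) (z : ι → K)
    (L : ℝ) (hL0 : 0 < L) (hL : ∑ i, |(c i : ℝ)| ≤ L)
    (harchp : ∀ w ∈ (archAbsVal : Multiset (AbsoluteValue K ℝ)), w (p : K) = p)
    (h0 : ∑ i, (c i : K) * z i = 0) (hne : ∑ i, (c i : K) * z i ^ p ≠ 0) :
    1 ≤ (L / p) ^ totalWeight K * mulHeight z ^ p := by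
  classical
  have hι : Nonempty ι := by
    by_contra h
    rw [not_nonempty_iff] at h
    exact hne (by simp)
  have hz : z ≠ 0 := by
    rintro rfl
    exact hne (by simp [hp.ne_zero])
  have hp0 : (0 : ℝ) < p := by exact_mod_cast hp.pos
  have hmain := PP_le (fun w : AbsoluteValue K ℝ => w (∑ i, (c i : K) * z i ^ p))
    (fun w => w (p : K) * (⨆ i, w (z i)) ^ p) (L / p) (FM_val hne)
    (FM_mul (FM_val hpK) (FM_pow (FM_iSup hz) p)) (fun w => w.nonneg _)
    (by
      intro w hw
      have hb : BddAbove (Set.range fun i => w (z i)) := Finite.bddAbove_range _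
      have hs0 : 0 ≤ ⨆ i, w (z i) := Real.iSup_nonneg fun i => w.nonneg _
      have hcw : ∀ m : ℤ, w (m : K) ≤ |(m : ℝ)| := by
        intro m
        rcases abs_cases m with ⟨h1, h2⟩ | ⟨h1, h2⟩
        · obtain ⟨k, rfl⟩ := Int.eq_ofNat_of_zero_le h2
          rw [Int.cast_natCast, Int.cast_natCast, abs_of_nonneg (Nat.cast_nonneg k)]
          exact w.apply_nat_le_self k
        · obtain ⟨k, hk⟩ := Int.eq_ofNat_of_zero_le (show 0 ≤ -m by omega)
          have : m = -(k : ℤ) := by omega
          rw [this, Int.cast_neg, Int.cast_natCast, map_neg_eq_map]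
          push_cast
          rw [abs_neg, abs_of_nonneg (Nat.cast_nonneg k)]
          exact w.apply_nat_le_self k
      calc w (∑ i, (c i : K) * z i ^ p) ≤ ∑ i, w ((c i : K) * z i ^ p) := w.sum_le _ _
        _ ≤ ∑ i, |(c i : ℝ)| * (⨆ i, w (z i)) ^ p := by
            refine Finset.sum_le_sum fun i _ => ?_
            rw [map_mul, map_pow]
            exact mul_le_mul (hcw _) (pow_le_pow_left₀ (w.nonneg _) (le_ciSup hb i) _)
              (by positivity) (abs_nonneg _)
        _ = (∑ i, |(c i : ℝ)|) * (⨆ i, w (z i)) ^ p := by rw [Finset.sum_mul]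
        _ ≤ L * (⨆ i, w (z i)) ^ p := by gcongr
        _ = L / p * (w (p : K) * (⨆ i, w (z i)) ^ p) := by
            rw [harchp w hw]
            field_simp)
    (by
      intro w hw
      exact nonarch_bound (isNonarchimedean w hw) p hp c z h0)
  rw [PP_val hne, PP_mul (FM_val hpK) (FM_pow (FM_iSup hz) p), PP_val hpK, one_mul,
    PP_pow (FM_iSup hz), PP_iSup hz] at hmain
  exact hmain

end Pool.Agent.Y215.SP
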