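import Mathlib
import Pool.Agent.Helper259.AbsHt
import Pool.Agent.Y215.SP.Frob

set_option autoImplicit false

/-! # Integral linear forms at points of small height -/

namespace Pool.Agent.Y215.SP

open Finset Height Height.AdmissibleAbsValues Pool.Agent.TH409.SH Pool.Agent.Helper259.AbsHt Module

/-! ### Absolute heights -/

theorem abs_pow {ι : Type} [Finite ι] (x : ι → Qbar) (m : ℕ) :
    absLogHeight (fun i => x i ^ m) = m * absLogHeight x := by
  obtain ⟨L, hL, hmem⟩ := exists_nf (Set.range x) (Set.finite_range x)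
  obtain ⟨y, rfl⟩ := lift_vec L x fun i => hmem _ ⟨i, rfl⟩
  have e : (fun i => ((y i : L) : Qbar) ^ m) = fun i => (((y ^ m) i : L) : Qbar) := by
    funext i
    rfl
  rw [e, val_eq, val_eq, logHeight_pow]
  ring

theorem abs_mul_le {ι : Type} [Finite ι] (x y : ι → Qbar) :
    absLogHeight (fun i => x i * y i) ≤ absLogHeight x + absLogHeight y := by
  obtain ⟨L, hL, hmem⟩ := exists_nf (Set.range x ∪ Set.range y)
    ((Set.finite_range x).union (Set.finite_range y))
  obtain ⟨x', rfl⟩ := lift_vec L x fun i => hmem _ (Or.inl ⟨i, rfl⟩)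
  obtain ⟨y', rfl⟩ := lift_vec L y fun i => hmem _ (Or.inr ⟨i, rfl⟩)
  have e : (fun i => ((x' i : L) : Qbar) * ((y' i : L) : Qbar)) =
      fun i => (((x' * y') i : L) : Qbar) := by
    funext i
    rfl
  rw [e, val_eq, val_eq, val_eq, ← add_div]
  exact div_le_div_of_nonneg_right (logHeight_mul_le _ _) (finrank_pos' L).le

theorem abs_one {ι : Type} [Finite ι] : absLogHeight (fun _ : ι => (1 : Qbar)) = 0 := by
  have := absLogHeight_eq ℚ (algebraMap ℚ Qbar) (1 : ι → ℚ)
  rw [logHeight_one, zero_div] at this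
  rw [← this]
  congr 1

theorem abs_prod_le {ι κ : Type} [Finite ι] (s : Finset κ) (x : κ → ι → Qbar) :
    absLogHeight (fun i => ∏ a ∈ s, x a i) ≤ ∑ a ∈ s, absLogHeight (x a) := by
  classical
  induction s using Finset.induction_on with
  | empty => simp [abs_one]
  | insert a s ha ih =>
    simp only [Finset.prod_insert ha, Finset.sum_insert ha]
    exact (abs_mul_le _ _).trans (by linarith)

/-! ### One prime -/

theorem arch_nat {K : Type} [Field K] [NumberField K] {w : AbsoluteValue K ℝ}
    (hw : w ∈ (archAbsVal : Multiset (AbsoluteValue K ℝ))) (m : ℕ) : w (m : K) = m := by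
  obtain ⟨v, rfl⟩ : ∃ v : NumberField.InfinitePlace K, v.val = w := by
    have h := (NumberField.mem_multisetInfinitePlace (K := K) (v := w)).1 hw
    obtain ⟨φ, hφ⟩ := h
    exact ⟨⟨w, ⟨φ, hφ⟩⟩, rfl⟩
  show v (m : K) = m
  rw [← NumberField.InfinitePlace.norm_embedding_eq v, map_natCast, Complex.norm_natCast]

theorem frob_abs (p : ℕ) (hp : p.Prime) {ι : Type} [Fintype ι] (c : ι → ℤ) (z : ι → Qbar)
    (L : ℝ) (hL0 : 0 < L) (hL : ∑ i, |(c i : ℝ)| ≤ L)
    (h0 : ∑ i, (c i : Qbar) * z i = 0) (hs : p * absLogHeight z < Real.log (p / L)) :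
    ∑ i, (c i : Qbar) * z i ^ p = 0 := by
  obtain ⟨F, hF, hmem⟩ := exists_nf (Set.range z) (Set.finite_range z)
  obtain ⟨y, rfl⟩ := lift_vec F z fun i => hmem _ ⟨i, rfl⟩
  have h1 : ∑ i, (c i : F) * y i = 0 := by
    have h2 : ((∑ i, (c i : F) * y i : F) : Qbar) = 0 := by
      push_cast
      exact h0
    exact_mod_cast h2
  by_contra hne
  have h2 : ∑ i, (c i : F) * y i ^ p ≠ 0 := by
    intro h3
    apply hne
    have h4 : ((∑ i, (c i : F) * y i ^ p : F) : Qbar) = 0 := by
      rw [h3]
      rfl
    push_cast at h4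
    exact h4
  have hp0 : (0 : ℝ) < p := by exact_mod_cast hp.pos
  have h3 := frob_step p hp (by exact_mod_cast hp.ne_zero) c y L hL0 hL
    (fun w hw => arch_nat hw p) h1 h2
  rw [val_eq] at hs
  have hD := finrank_pos' F
  have h4 := Real.log_le_log one_pos h3
  have hmh : (0 : ℝ) < mulHeight y := mulHeight_pos y
  rw [Real.log_one, Real.log_mul (by positivity) (by positivity), Real.log_pow, Real.log_pow,
    NumberField.totalWeight_eq_finrank, ← logHeight_eq_log_mulHeight] at h4
  have h5 : Real.log (L / p) = - Real.log (p / L) := by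
    rw [← Real.log_inv, inv_div]
  rw [h5] at h4
  rw [mul_div_assoc', div_lt_iff₀ hD] at hs
  nlinarith

/-! ### Exponents without small prime factors -/

theorem log_lower (L : ℕ) (hL : 1 ≤ L) (p : ℕ) (hp : L < p) :
    1 / ((L : ℝ) + 1) ≤ Real.log ((p : ℝ) / L) := by
  have hL0 : (0 : ℝ) < L := by exact_mod_cast hL
  have hp0 : (0 : ℝ) < p := by
    have : 0 < p := by omega
    exact_mod_cast this
  have h1 := Real.one_sub_inv_le_log_of_pos (x := (p : ℝ) / L) (by positivity)
  refine le_trans ?_ h1
  rw [inv_div]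
  have h2 : (L : ℝ) + 1 ≤ p := by exact_mod_cast hp
  have h3 : (L : ℝ) / p ≤ L / (L + 1) := div_le_div_of_nonneg_left hL0.le (by positivity) h2
  have h4 : 1 / ((L : ℝ) + 1) = 1 - L / (L + 1) := by
    field_simp
    ring
  rw [h4]
  linarith

theorem chain (L : ℕ) (hL1 : 1 ≤ L) {ι : Type} [Fintype ι] (c : ι → ℤ)
    (hL : ∑ i, |(c i : ℝ)| ≤ L) :
    ∀ (m : ℕ), m ≠ 0 → (∀ p : ℕ, p.Prime → p ∣ m → L < p) → ∀ z : ι → Qbar,
      ∑ i, (c i : Qbar) * z i = 0 → m * absLogHeight z < 1 / ((L : ℝ) + 1) →
      ∑ i, (c i : Qbar) * z i ^ m = 0 := by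
  intro m
  induction m using Nat.strong_induction_on with
  | _ m ih =>
    intro hm0 hm z h0 hs
    rcases Nat.lt_or_ge 1 m with h1 | h1
    · obtain ⟨m', hm'⟩ := Nat.minFac_dvd m
      set p := m.minFac with hpdef
      have hp : p.Prime := Nat.minFac_prime (by omega)
      have hm'0 : m' ≠ 0 := by
        rintro rfl
        apply hm0
        rw [hm', mul_zero]
      have hlt : m' < m := by
        rw [hm']
        have := hp.two_le
        nlinarith [Nat.pos_of_ne_zero hm'0]
      have hpL : L < p := hm p hp (Nat.minFac_dvd m)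
      have hh := absLogHeight_nonneg z
      have hpm : (p : ℝ) ≤ m := by exact_mod_cast Nat.minFac_le (by omega)
      have h2 : ∑ i, (c i : Qbar) * z i ^ p = 0 := by
        refine frob_abs p hp c z L (by exact_mod_cast hL1) hL h0 ?_
        refine lt_of_lt_of_le ?_ (log_lower L hL1 p hpL)
        refine lt_of_le_of_lt ?_ hs
        gcongr
      have h3 := ih m' hlt hm'0 (fun q hq hqm => hm q hq (hqm.trans ⟨p, by rw [hm']; ring⟩))
        (fun i => z i ^ p) h2 (by
          rw [abs_pow, ← mul_assoc]
          have : (m' : ℝ) * p = m := by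
            have := congrArg (fun a : ℕ => (a : ℝ)) hm'
            push_cast at this
            rw [this]
            ring
          rw [this]
          exact hs)
      rw [← h3]
      refine Finset.sum_congr rfl fun i _ => ?_
      rw [← pow_mul, ← hm']
    · have : m = 1 := by omega
      subst this
      simpa using h0

/-! ### The class sums vanish -/

/-- the bound for the height -/
noncomputable def eps (L : ℕ) : ℝ := 1 / (((L : ℝ) + 1) * (1 + L.factorial * L))

theorem eps_pos (L : ℕ) : 0 < eps L := by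
  unfold eps
  positivity

open Classical in
theorem class_sum (L : ℕ) (hL1 : 1 ≤ L) {ι : Type} [Fintype ι]
    (hcard : Fintype.card ι ≤ L) (c : ι → ℤ) (hL : ∑ i, |(c i : ℝ)| ≤ L) (z : ι → Qbar)
    (h0 : ∑ i, (c i : Qbar) * z i = 0) (hs : absLogHeight z < eps L) (w : Qbar) :
    ∑ i ∈ Finset.univ.filter (fun i => z i ^ L.factorial = w), (c i : Qbar) * z i = 0 := by
  set Q := L.factorial with hQ
  have hpow : ∀ j : ℕ, j < L → ∑ i, (c i : Qbar) * z i * (z i ^ Q) ^ j = 0 := by
    intro j hj
    have h1 := chain L hL1 c hL (1 + Q * j) (by omega) (by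
      intro p hp hpm
      by_contra hle
      push Not at hle
      have h2 : p ∣ Q := hp.dvd_factorial.2 hle
      have h3 : p ∣ 1 := (Nat.dvd_add_left (h2.mul_right j)).1 hpm
      exact hp.one_lt.ne' (Nat.dvd_one.1 h3)) z h0 (by
      have hh := absLogHeight_nonneg z
      have h4 : ((1 + Q * j : ℕ) : ℝ) ≤ 1 + Q * L := by
        push_cast
        have : (j : ℝ) ≤ L := by exact_mod_cast hj.le
        gcongr
      have h5 : (0 : ℝ) < 1 + Q * L := by positivity
      calc ((1 + Q * j : ℕ) : ℝ) * absLogHeight z ≤ (1 + Q * L) * absLogHeight z := by gcongr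
        _ < (1 + Q * L) * eps L := by gcongr
        _ = 1 / ((L : ℝ) + 1) := by
          unfold eps
          rw [← hQ]
          field_simp)
    rw [← h1]
    refine Finset.sum_congr rfl fun i _ => ?_
    rw [← pow_mul, pow_add, pow_one, mul_assoc]
  -- all polynomials of degree less than `L`
  have hpoly : ∀ g : Polynomial Qbar, g.natDegree < L →
      ∑ i, (c i : Qbar) * z i * g.eval (z i ^ Q) = 0 := by
    intro g hg
    have h1 : ∀ i, g.eval (z i ^ Q) = ∑ j ∈ Finset.range L, g.coeff j * (z i ^ Q) ^ j := fun i =>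
      Polynomial.eval_eq_sum_range' hg _
    simp_rw [h1, Finset.mul_sum]
    rw [Finset.sum_comm]
    refine Finset.sum_eq_zero fun j hj => ?_
    have h2 := hpow j (Finset.mem_range.1 hj)
    calc ∑ i, (c i : Qbar) * z i * (g.coeff j * (z i ^ Q) ^ j) =
        g.coeff j * ∑ i, (c i : Qbar) * z i * (z i ^ Q) ^ j := by
          rw [Finset.mul_sum]
          exact Finset.sum_congr rfl fun i _ => by ring
      _ = 0 := by rw [h2, mul_zero]
  by_cases hw : ∃ i, z i ^ Q = w
  · obtain ⟨i0, hi0⟩ := hw
    set V := (Finset.univ.image (fun i => z i ^ Q)).erase w with hV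
    have hVc : V.card < L := by
      have h1 : w ∈ Finset.univ.image (fun i => z i ^ Q) :=
        Finset.mem_image.2 ⟨i0, Finset.mem_univ _, hi0⟩
      have h2 : V.card < (Finset.univ.image (fun i => z i ^ Q)).card :=
        Finset.card_erase_lt_of_mem h1
      have h3 : (Finset.univ.image (fun i => z i ^ Q)).card ≤ Fintype.card ι :=
        Finset.card_image_le
      omega
    set g : Polynomial Qbar := ∏ v ∈ V, (Polynomial.X - Polynomial.C v) with hg
    have hgd : g.natDegree < L := by
      rw [hg, Polynomial.natDegree_finsetProd_X_sub_C_eq_card]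
      exact hVc
    have h1 := hpoly g hgd
    have hgw : g.eval w ≠ 0 := by
      rw [hg, Polynomial.eval_prod]
      refine Finset.prod_ne_zero_iff.2 fun v hv => ?_
      rw [Polynomial.eval_sub, Polynomial.eval_X, Polynomial.eval_C, sub_ne_zero]
      exact (Finset.ne_of_mem_erase hv).symm
    have h2 : ∑ i, (c i : Qbar) * z i * g.eval (z i ^ Q) =
        (∑ i ∈ Finset.univ.filter (fun i => z i ^ Q = w), (c i : Qbar) * z i) * g.eval w := by
      rw [← Finset.sum_filter_add_sum_filter_not Finset.univ (fun i => z i ^ Q = w), Finset.sum_mul]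
      have h3 : ∑ i ∈ Finset.univ.filter (fun i => ¬ z i ^ Q = w),
          (c i : Qbar) * z i * g.eval (z i ^ Q) = 0 := by
        refine Finset.sum_eq_zero fun i hi => ?_
        have hi' := (Finset.mem_filter.1 hi).2
        have h4 : g.eval (z i ^ Q) = 0 := by
          rw [hg, Polynomial.eval_prod]
          refine Finset.prod_eq_zero (i := z i ^ Q) ?_ (by simp)
          exact Finset.mem_erase.2 ⟨hi', Finset.mem_image.2 ⟨i, Finset.mem_univ _, rfl⟩⟩
        rw [h4, mul_zero]
      rw [h3, add_zero]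
      refine Finset.sum_congr rfl fun i hi => ?_
      rw [(Finset.mem_filter.1 hi).2]
    rw [h2] at h1
    exact (mul_eq_zero.1 h1).resolve_right hgw
  · push Not at hw
    rw [Finset.filter_false_of_mem (fun i _ => hw i), Finset.sum_empty]

end Pool.Agent.Y215.SP
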