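import Mathlib
import Pool.Agent.Y215.SP.Small

set_option autoImplicit false

/-! # The number of nondegenerate points of small height on a hyperplane -/

namespace Pool.Agent.Y215.SP

open Finset Pool.Agent.Helper259.AbsHt

variable {L : Type} [Field L]

/-- the nondegenerate solutions of height less than `ε` of the equation `∑ a_j y_j = 0` -/
def SolS (ι : Qbar →+* L) (ε : ℝ) {α : Type} [Fintype α] (a : α → L) : Set (α → Qbar) :=
  {y | (∀ j, y j ≠ 0) ∧ absLogHeight y < ε ∧ ∑ j, a j * ι (y j) = 0 ∧
    ∀ A : Finset α, A.Nonempty → A ≠ Finset.univ → ∑ j ∈ A, a j * ι (y j) ≠ 0}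

/-- the ratios of the coordinates -/
noncomputable def Rt {α : Type} (y : α → Qbar) : α × α → Qbar := fun p => y p.1 / y p.2

/-- the bound for the height -/
noncomputable def epsn (n : ℕ) : ℝ := eps n.factorial / n

/-- the bound for the number of values of a ratio -/
def bnd (n : ℕ) : ℕ := n.factorial ^ 2 * (n.factorial).factorial

theorem coef_ne {ι : Qbar →+* L} {ε : ℝ} {α : Type} [Fintype α] (hα : 2 ≤ Fintype.card α)
    {a : α → L} {y : α → Qbar} (hy : y ∈ SolS ι ε a) (j : α) : a j ≠ 0 := by
  intro h0
  refine hy.2.2.2 {j} (Finset.singleton_nonempty j) ?_ (by simp [h0])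
  intro h
  have := congrArg Finset.card h
  rw [Finset.card_singleton, Finset.card_univ] at this
  omega

/-- all determinants of `card α` solutions vanish -/
theorem det_full {ι : Qbar →+* L} {ε : ℝ} {α : Type} [Fintype α] (hα : 2 ≤ Fintype.card α)
    {a : α → L} (R : Fin (Fintype.card α) → α → Qbar) (hR : ∀ i, R i ∈ SolS ι ε a)
    (col : Fin (Fintype.card α) → α) :
    (Matrix.of fun k i => R i (col k)).det = 0 := by
  classical
  by_cases hinj : Function.Injective col
  · have hbij : Function.Bijective col :=
      (Fintype.bijective_iff_injective_and_card col).2 ⟨hinj, by simp⟩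
    have hpos : 0 < Fintype.card α := by omega
    set i0 : Fin (Fintype.card α) := ⟨0, hpos⟩
    have h1 : ((Matrix.of fun k i => R i (col k)).map ι).det = 0 := by
      refine Matrix.exists_vecMul_eq_zero_iff.1 ⟨fun k => a (col k), ?_, ?_⟩
      · intro h
        exact coef_ne hα (hR i0) (col i0) (congrFun h i0)
      · funext i
        show ∑ k, a (col k) * ι (R i (col k)) = 0
        rw [← (hR i).2.2.1]
        exact Fintype.sum_bijective col hbij _ _ (fun k => rfl)
    rw [← RingHom.mapMatrix_apply, ← RingHom.map_det] at h1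
    exact (map_eq_zero ι).1 h1
  · simp only [Function.Injective, not_forall] at hinj
    obtain ⟨k, k', hkk, hne⟩ := hinj
    exact Matrix.det_zero_of_row_eq hne (by
      funext i
      simp [hkk])

/-- the part of the determinant with the last entry of the last column -/
theorem sum_last (m : ℕ) (N : Matrix (Fin (m + 1)) (Fin (m + 1)) Qbar) :
    ∑ σ ∈ (Finset.univ : Finset (Equiv.Perm (Fin (m + 1)))).filter
      (fun σ => σ (Fin.last m) = Fin.last m),
      ((Equiv.Perm.sign σ : ℤ) : Qbar) * ∏ i, N (σ i) i =
    N (Fin.last m) (Fin.last m) * (N.submatrix Fin.castSucc Fin.castSucc).det := by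
  classical
  set N' : Matrix (Fin (m + 1)) (Fin (m + 1)) Qbar :=
    N.updateCol (Fin.last m) (Pi.single (Fin.last m) (N (Fin.last m) (Fin.last m))) with hN'
  have hlast : ∀ k, N' k (Fin.last m) = if k = Fin.last m then N (Fin.last m) (Fin.last m) else 0 := by
    intro k
    rw [hN', Matrix.updateCol_self, Pi.single_apply]
  have hcs : ∀ k (i : Fin m), N' k i.castSucc = N k i.castSucc := by
    intro k i
    rw [hN', Matrix.updateCol_ne (Fin.castSucc_lt_last i).ne]
  have h1 : N'.det = ∑ σ ∈ (Finset.univ : Finset (Equiv.Perm (Fin (m + 1)))).filter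
      (fun σ => σ (Fin.last m) = Fin.last m),
      ((Equiv.Perm.sign σ : ℤ) : Qbar) * ∏ i, N (σ i) i := by
    rw [Matrix.det_apply', Finset.sum_filter]
    refine Finset.sum_congr rfl fun σ _ => ?_
    rw [Fin.prod_univ_castSucc, Fin.prod_univ_castSucc, hlast]
    simp_rw [hcs]
    split_ifs with h
    · rw [h]
    · simp
  have h2 : N'.det = N (Fin.last m) (Fin.last m) * (N.submatrix Fin.castSucc Fin.castSucc).det := by
    rw [Matrix.det_succ_column N' (Fin.last m), Finset.sum_eq_single (Fin.last m)]
    · rw [hlast, if_pos rfl]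
      have h3 : (-1 : Qbar) ^ ((Fin.last m : ℕ) + (Fin.last m : ℕ)) = 1 := by
        rw [← two_mul, pow_mul]
        norm_num
      rw [h3, one_mul]
      congr 2
      ext k i
      simp [Fin.succAbove_last, hcs]
    · intro k _ hk
      rw [hlast, if_neg hk]
      ring
    · intro h
      exact absurd (Finset.mem_univ _) h
  rw [← h1, h2]

theorem step (n : ℕ) (ι : Qbar →+* L) {α : Type} [Fintype α] (hα2 : 2 ≤ Fintype.card α)
    (hαn : Fintype.card α ≤ n) (a : α → L) :
    ∃ T : Finset Qbar, T.card ≤ bnd n ∧ ∀ y ∈ SolS ι (epsn n) a,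
      ∃ j j', j ≠ j' ∧ ∃ c ∈ T, y j = c * y j' := by
  classical
  rcases (SolS ι (epsn n) a).eq_empty_or_nonempty with hemp | ⟨y0, hy0⟩
  · exact ⟨∅, by simp, fun y hy => by rw [hemp] at hy; exact hy.elim⟩
  set S := SolS ι (epsn n) a with hS
  set Q := (n.factorial).factorial with hQ
  have hQ0 : 0 < Q := Nat.factorial_pos _
  let Z : ℕ → Prop := fun m => ∀ R : Fin m → α → Qbar, (∀ i, R i ∈ S) → ∀ col : Fin m → α,
    (Matrix.of fun k i => R i (col k)).det = 0
  have hZ : ∃ m, Z m := ⟨Fintype.card α, fun R hR col => det_full hα2 R hR col⟩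
  have hle : Nat.find hZ ≤ Fintype.card α := Nat.find_min' hZ fun R hR col => det_full hα2 R hR col
  have hZ0 : ¬ Z 0 := by
    intro h
    have h1 := h (fun i => i.elim0) (fun i => i.elim0) (fun i => i.elim0)
    rw [Matrix.det_isEmpty] at h1
    exact one_ne_zero h1
  obtain ⟨m, hm⟩ : ∃ m, Nat.find hZ = m + 1 := by
    refine ⟨Nat.find hZ - 1, ?_⟩
    have : Nat.find hZ ≠ 0 := by
      intro h
      apply hZ0
      rw [← h]
      exact Nat.find_spec hZ
    omega
  have hZm1 : Z (m + 1) := by
    rw [← hm]
    exact Nat.find_spec hZ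
  have hZm : ¬ Z m := Nat.find_min hZ (by omega)
  simp only [Z] at hZm
  push Not at hZm
  obtain ⟨R0, hR0, col0, hdet0⟩ := hZm
  have hcol0 : Function.Injective col0 := by
    intro k k' hkk
    by_contra hne
    exact hdet0 (Matrix.det_zero_of_row_eq hne (by
      funext i
      simp [hkk]))
  obtain ⟨j0, hj0⟩ : ∃ j0, ∀ k, col0 k ≠ j0 := by
    by_contra hcon
    push Not at hcon
    have h1 : Function.Surjective col0 := hcon
    have h2 := Fintype.card_le_of_surjective col0 h1
    rw [Fintype.card_fin] at h2
    omega
  set cols : Fin (m + 1) → α := Fin.snoc col0 j0 with hcols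
  have hcols_cs : ∀ i : Fin m, cols i.castSucc = col0 i := fun i => by
    rw [hcols, Fin.snoc_castSucc]
  have hcols_last : cols (Fin.last m) = j0 := by rw [hcols, Fin.snoc_last]
  have hcinj : Function.Injective cols := by
    intro k k' hkk
    induction k using Fin.lastCases with
    | last =>
      induction k' using Fin.lastCases with
      | last => rfl
      | cast k' =>
        rw [hcols_last, hcols_cs] at hkk
        exact absurd hkk.symm (hj0 k')
    | cast k =>
      induction k' using Fin.lastCases with
      | last =>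
        rw [hcols_last, hcols_cs] at hkk
        exact absurd hkk (hj0 k)
      | cast k' =>
        rw [hcols_cs, hcols_cs] at hkk
        rw [hcol0 hkk]
  have hmn : m + 1 ≤ n := by omega
  have hfac : (m + 1).factorial ≤ n.factorial := Nat.factorial_le hmn
  let μ : Equiv.Perm (Fin (m + 1)) → Qbar := fun σ => ∏ i : Fin m, R0 i (cols (σ i.castSucc))
  have hμ : ∀ σ, μ σ ≠ 0 := fun σ => Finset.prod_ne_zero_iff.2 fun i _ => (hR0 i).1 _
  refine ⟨(Finset.univ : Finset (Equiv.Perm (Fin (m + 1)) × Equiv.Perm (Fin (m + 1)))).biUnion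
    (fun p => (Polynomial.nthRoots Q ((μ p.2 / μ p.1) ^ Q)).toFinset), ?_, ?_⟩
  · refine (Finset.card_biUnion_le_card_mul _ _ Q fun p _ => ?_).trans ?_
    · exact (Multiset.toFinset_card_le _).trans (Polynomial.card_nthRoots _ _)
    · rw [Finset.card_univ, Fintype.card_prod, Fintype.card_perm, Fintype.card_fin]
      unfold bnd
      rw [← hQ, sq]
      gcongr
  · intro y hy
    set R : Fin (m + 1) → α → Qbar := Fin.snoc (α := fun _ => α → Qbar) R0 y with hR
    have hR_cs : ∀ i : Fin m, R i.castSucc = R0 i := fun i => by
      rw [hR]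
      exact Fin.snoc_castSucc (α := fun _ => α → Qbar) _ _ _
    have hR_last : R (Fin.last m) = y := by
      rw [hR]
      exact Fin.snoc_last (α := fun _ => α → Qbar) _ _
    have hRS : ∀ i, R i ∈ S := by
      intro i
      induction i using Fin.lastCases with
      | last => rw [hR_last]; exact hy
      | cast i => rw [hR_cs]; exact hR0 i
    have hdet := hZm1 R hRS cols
    set N : Matrix (Fin (m + 1)) (Fin (m + 1)) Qbar := Matrix.of fun k i => R i (cols k) with hN
    let z : Equiv.Perm (Fin (m + 1)) → Qbar := fun σ => ∏ i, R i (cols (σ i))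
    have hzμ : ∀ σ, z σ = μ σ * y (cols (σ (Fin.last m))) := by
      intro σ
      show ∏ i, R i (cols (σ i)) = _
      rw [Fin.prod_univ_castSucc, hR_last]
      congr 1
      refine Finset.prod_congr rfl fun i _ => ?_
      rw [hR_cs]
    have hz0 : ∑ σ : Equiv.Perm (Fin (m + 1)), (((Equiv.Perm.sign σ : ℤ)) : Qbar) * z σ = 0 := by
      rw [← hdet, Matrix.det_apply']
      rfl
    have hcardP : Fintype.card (Equiv.Perm (Fin (m + 1))) = (m + 1).factorial := by
      rw [Fintype.card_perm, Fintype.card_fin]
    have hzh : absLogHeight z < eps n.factorial := by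
      have h1 : absLogHeight z ≤ ∑ i : Fin (m + 1), absLogHeight (fun σ : Equiv.Perm _ =>
          R i (cols (σ i))) := abs_prod_le _ _
      have h2 : ∀ i : Fin (m + 1), absLogHeight (fun σ : Equiv.Perm (Fin (m + 1)) =>
          R i (cols (σ i))) < epsn n := fun i =>
        lt_of_le_of_lt (absLogHeight_comp_le (fun σ : Equiv.Perm (Fin (m + 1)) => cols (σ i)) (R i))
          (hRS i).2.1
      have h3 : ∑ i : Fin (m + 1), absLogHeight (fun σ : Equiv.Perm (Fin (m + 1)) =>
          R i (cols (σ i))) < ∑ _i : Fin (m + 1), epsn n :=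
        Finset.sum_lt_sum_of_nonempty Finset.univ_nonempty fun i _ => h2 i
      rw [Finset.sum_const, Finset.card_univ, Fintype.card_fin, nsmul_eq_mul] at h3
      have hn0 : (0 : ℝ) < n := by
        have : 0 < n := by omega
        exact_mod_cast this
      have h4 : ((m + 1 : ℕ) : ℝ) * epsn n ≤ n * epsn n := by
        have h5 : ((m + 1 : ℕ) : ℝ) ≤ n := by exact_mod_cast hmn
        have h6 : 0 ≤ epsn n := div_nonneg (eps_pos _).le hn0.le
        gcongr
      have h5 : (n : ℝ) * epsn n = eps n.factorial := by
        unfold epsn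
        field_simp
      linarith
    have hcls := fun w => class_sum n.factorial (Nat.factorial_pos n)
      (ι := Equiv.Perm (Fin (m + 1))) (by rw [hcardP]; exact hfac)
      (fun σ => (Equiv.Perm.sign σ : ℤ)) (by
        have h1 : ∀ σ : Equiv.Perm (Fin (m + 1)),
            |(((Equiv.Perm.sign σ : ℤ)) : ℝ)| = 1 := by
          intro σ
          rcases Int.units_eq_one_or (Equiv.Perm.sign σ) with h | h <;> rw [h] <;> simp
        simp_rw [h1]
        rw [Finset.sum_const, Finset.card_univ, hcardP, nsmul_eq_mul, mul_one]
        exact_mod_cast hfac) z hz0 hzh w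
    rw [← hQ] at hcls
    -- two permutations in one class
    obtain ⟨σ, σ', hne, heq⟩ : ∃ σ σ' : Equiv.Perm (Fin (m + 1)),
        σ (Fin.last m) ≠ σ' (Fin.last m) ∧ z σ ^ Q = z σ' ^ Q := by
      by_contra hcon
      push Not at hcon
      set F := (Finset.univ : Finset (Equiv.Perm (Fin (m + 1)))).filter
        (fun σ => σ (Fin.last m) = Fin.last m) with hF
      have h1 : ∑ σ ∈ F, (((Equiv.Perm.sign σ : ℤ)) : Qbar) * z σ = 0 := by
        rw [← Finset.sum_fiberwise_of_maps_to (s := F) (t := F.image (fun σ => z σ ^ Q))
          (g := fun σ => z σ ^ Q) (fun σ hσ => Finset.mem_image_of_mem _ hσ)]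
        refine Finset.sum_eq_zero fun w hw => ?_
        obtain ⟨σ0, hσ0, rfl⟩ := Finset.mem_image.1 hw
        rw [← hcls (z σ0 ^ Q)]
        refine Finset.sum_congr ?_ fun _ _ => rfl
        ext σ
        simp only [hF, Finset.mem_filter]
        constructor
        · rintro ⟨-, h⟩
          exact ⟨Finset.mem_univ _, h⟩
        · rintro ⟨-, h⟩
          refine ⟨⟨Finset.mem_univ _, ?_⟩, h⟩
          by_contra hne
          refine hcon σ σ0 ?_ h
          rw [(Finset.mem_filter.1 hσ0).2]
          exact hne
      have h2 := sum_last m N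
      have h3 : ∑ σ ∈ F, (((Equiv.Perm.sign σ : ℤ)) : Qbar) * z σ =
          N (Fin.last m) (Fin.last m) * (N.submatrix Fin.castSucc Fin.castSucc).det := h2
      rw [h1] at h3
      rcases mul_eq_zero.1 h3.symm with h4 | h4
      · have h5 : N (Fin.last m) (Fin.last m) = y j0 := by
          show R (Fin.last m) (cols (Fin.last m)) = y j0
          rw [hR_last, hcols_last]
        rw [h5] at h4
        exact hy.1 j0 h4
      · apply hdet0
        rw [← h4]
        congr 1
        ext k i
        show R0 i (col0 k) = R i.castSucc (cols k.castSucc)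
        rw [hR_cs, hcols_cs]
    refine ⟨cols (σ (Fin.last m)), cols (σ' (Fin.last m)), fun h => hne (hcinj h),
      y (cols (σ (Fin.last m))) / y (cols (σ' (Fin.last m))), ?_, ?_⟩
    · rw [Finset.mem_biUnion]
      refine ⟨(σ, σ'), Finset.mem_univ _, ?_⟩
      rw [Multiset.mem_toFinset, Polynomial.mem_nthRoots hQ0]
      rw [hzμ, hzμ, mul_pow, mul_pow] at heq
      have h1 := pow_ne_zero Q (hμ σ)
      have h2 := pow_ne_zero Q (hy.1 (cols (σ' (Fin.last m))))
      rw [div_pow, div_pow, div_eq_div_iff h2 h1]
      linear_combination heq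
    · rw [div_mul_cancel₀ _ (hy.1 _)]

theorem encard_le_mul {β γ : Type} [Finite β] (S : Set γ) (A : β → Set γ) (B : ℕ)
    (hS : S ⊆ ⋃ b, A b) (hA : ∀ b, (A b).encard ≤ B) : S.encard ≤ ((Nat.card β * B : ℕ) : ℕ∞) := by
  classical
  have := Fintype.ofFinite β
  refine (Set.encard_le_encard hS).trans ((Set.encard_iUnion_le_of_fintype A).trans ?_)
  refine (Finset.sum_le_sum fun b _ => hA b).trans ?_
  rw [Finset.sum_const, Finset.card_univ, Nat.card_eq_fintype_card, nsmul_eq_mul]
  push_cast
  exact le_rfl

/-- **Uniform bound for the number of nondegenerate solutions of small height of a linear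
equation with arbitrary coefficients.** -/
theorem uniform (n : ℕ) : ∀ (k : ℕ) (α : Type) [Fintype α], Fintype.card α = k → k ≤ n →
    ∀ (L : Type) [Field L] (ι : Qbar →+* L) (a : α → L),
      (Rt '' SolS ι (epsn n) a).encard ≤ (((n ^ 2 * bnd n) ^ k : ℕ) : ℕ∞) := by
  classical
  intro k
  induction k with
  | zero =>
    intro α _ hα _ L _ ι a
    have hemp : IsEmpty α := Fintype.card_eq_zero_iff.1 hα
    have h1 : (Rt '' SolS ι (epsn n) a).Subsingleton := by
      intro x _ y _
      funext p
      exact (hemp.false p.1).elim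
    refine (Set.encard_le_one_iff.2 fun x y hx hy => h1 hx hy).trans ?_
    simp
  | succ k ih =>
    intro α _ hα hk L _ ι a
    have hn1 : 1 ≤ n := by omega
    have hb : 1 ≤ n ^ 2 * bnd n := by
      have h1 : 0 < n ^ 2 := by positivity
      have h2 : 0 < bnd n := by
        unfold bnd
        have := Nat.factorial_pos n
        have := Nat.factorial_pos n.factorial
        positivity
      exact Nat.mul_pos h1 h2
    rcases Nat.lt_or_ge (Fintype.card α) 2 with hα2 | hα2
    · have hss : Subsingleton α := Fintype.card_le_one_iff_subsingleton.1 (by omega)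
      have h1 : (Rt '' SolS ι (epsn n) a).Subsingleton := by
        rintro _ ⟨y, hy, rfl⟩ _ ⟨y', hy', rfl⟩
        funext p
        have hp : p.1 = p.2 := Subsingleton.elim _ _
        unfold Rt
        rw [hp, div_self (hy.1 _), div_self (hy'.1 _)]
      refine (Set.encard_le_one_iff.2 fun x y hx hy => h1 hx hy).trans ?_
      have : 1 ≤ (n ^ 2 * bnd n) ^ (k + 1) := Nat.one_le_pow _ _ hb
      exact_mod_cast this
    · obtain ⟨T, hT, hstep⟩ := step n ι hα2 (by omega) a
      -- the reconstruction
      let I := {p : (α × α) × T // p.1.1 ≠ p.1.2}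
      let rec_ : ∀ q : I, ({i // i ≠ q.1.1.1} × {i // i ≠ q.1.1.1} → Qbar) → (α × α → Qbar) :=
        fun q ρ p => (if h : p.1 ≠ q.1.1.1 then ρ (⟨p.1, h⟩, ⟨q.1.1.2, fun h => q.2 h.symm⟩)
            else (q.1.2 : Qbar)) /
          (if h : p.2 ≠ q.1.1.1 then ρ (⟨p.2, h⟩, ⟨q.1.1.2, fun h => q.2 h.symm⟩)
            else (q.1.2 : Qbar))
      let coef : ∀ q : I, {i // i ≠ q.1.1.1} → L := fun q i =>
        if i.1 = q.1.1.2 then a i.1 + a q.1.1.1 * ι q.1.2 else a i.1
      have hcard : ∀ q : I, Fintype.card {i // i ≠ q.1.1.1} = k := by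
        intro q
        rw [Fintype.card_subtype_compl, hα, Fintype.card_subtype_eq]
        omega
      have hcov : Rt '' SolS ι (epsn n) a ⊆
          ⋃ q : I, rec_ q '' (Rt '' SolS ι (epsn n) (coef q)) := by
        rintro _ ⟨y, hy, rfl⟩
        obtain ⟨j, j', hjj, c, hc, hyc⟩ := hstep y hy
        rw [Set.mem_iUnion]
        refine ⟨⟨((j, j'), ⟨c, hc⟩), hjj⟩, _, ⟨fun i => y i.1, ?_, rfl⟩, ?_⟩
        · -- the equation with `k` terms
          have hkey : ∀ A : Finset {i // i ≠ j}, ∃ B : Finset α, (A.Nonempty → B.Nonempty) ∧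
              (A ≠ Finset.univ → B ≠ Finset.univ) ∧ (A = Finset.univ → B = Finset.univ) ∧
              ∑ i ∈ A, coef ⟨((j, j'), ⟨c, hc⟩), hjj⟩ i * ι (y i.1) = ∑ i ∈ B, a i * ι (y i) := by
            intro A
            set j2 : {i // i ≠ j} := ⟨j', fun h => hjj h.symm⟩ with hj2
            have hmap : ∀ A : Finset {i // i ≠ j}, ∑ i ∈ A, a i.1 * ι (y i.1) =
                ∑ i ∈ A.map (Function.Embedding.subtype _), a i * ι (y i) := by
              intro A
              rw [Finset.sum_map]
              rfl
            have hnot : ∀ A : Finset {i // i ≠ j}, j ∉ A.map (Function.Embedding.subtype _) := by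
              intro A h
              obtain ⟨i, _, hi⟩ := Finset.mem_map.1 h
              exact i.2 hi
            by_cases hA : j2 ∈ A
            · refine ⟨insert j (A.map (Function.Embedding.subtype _)), fun _ => ⟨j, by simp⟩, ?_, ?_,
                ?_⟩
              · intro hne h
                apply hne
                ext i
                refine ⟨fun _ => Finset.mem_univ _, fun _ => ?_⟩
                have h1 : (i : α) ∈ insert j (A.map (Function.Embedding.subtype _)) := by
                  rw [h]
                  exact Finset.mem_univ _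
                rcases Finset.mem_insert.1 h1 with h2 | h2
                · exact absurd h2 i.2
                · obtain ⟨i', hi', hii⟩ := Finset.mem_map.1 h2
                  have : i' = i := Subtype.ext hii
                  rwa [← this]
              · rintro rfl
                ext i
                refine ⟨fun _ => Finset.mem_univ _, fun _ => ?_⟩
                by_cases hi : i = j
                · rw [hi]; exact Finset.mem_insert_self _ _
                · exact Finset.mem_insert_of_mem (Finset.mem_map.2 ⟨⟨i, hi⟩, Finset.mem_univ _, rfl⟩)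
              · rw [Finset.sum_insert (hnot A), ← hmap, ← Finset.add_sum_erase A _ hA,
                  ← Finset.add_sum_erase A (fun i => a i.1 * ι (y i.1)) hA]
                have h1 : ∑ i ∈ A.erase j2, coef ⟨((j, j'), ⟨c, hc⟩), hjj⟩ i * ι (y i.1) =
                    ∑ i ∈ A.erase j2, a i.1 * ι (y i.1) := by
                  refine Finset.sum_congr rfl fun i hi => ?_
                  have hne : i.1 ≠ j' := fun h => (Finset.ne_of_mem_erase hi) (Subtype.ext h)
                  show (if i.1 = j' then _ else _) * _ = _
                  rw [if_neg hne]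
                rw [h1]
                have h2 : coef ⟨((j, j'), ⟨c, hc⟩), hjj⟩ j2 = a j' + a j * ι c := by
                  show (if j' = j' then _ else _) = _
                  rw [if_pos rfl]
                rw [h2, hyc, map_mul]
                ring
            · refine ⟨A.map (Function.Embedding.subtype _), fun h => h.map, ?_, ?_, ?_⟩
              · intro _ h
                apply hnot A
                rw [h]
                exact Finset.mem_univ _
              · rintro rfl
                exact absurd (Finset.mem_univ _) hA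
              · rw [← hmap]
                refine Finset.sum_congr rfl fun i hi => ?_
                have hne : i.1 ≠ j' := by
                  intro h
                  apply hA
                  rwa [show j2 = i from Subtype.ext h.symm]
                show (if i.1 = j' then _ else _) * _ = _
                rw [if_neg hne]
          refine ⟨fun i => hy.1 _, ?_, ?_, ?_⟩
          · exact lt_of_le_of_lt (absLogHeight_comp_le (fun i : {i // i ≠ j} => i.1) y) hy.2.1
          · obtain ⟨B, -, -, h3, h4⟩ := hkey Finset.univ
            rw [h4, h3 rfl]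
            exact hy.2.2.1
          · intro A hA hAu
            obtain ⟨B, h1, h2, -, h4⟩ := hkey A
            rw [h4]
            exact hy.2.2.2 B (h1 hA) (h2 hAu)
        · funext p
          have hyj' := hy.1 j'
          have hval : ∀ i : α, (if h : i ≠ j then
              Rt (fun i : {i // i ≠ j} => y i.1) (⟨i, h⟩, ⟨j', fun h => hjj h.symm⟩) else c) =
              y i / y j' := by
            intro i
            by_cases hi : i = j
            · rw [dif_neg (by simpa using hi), hi, hyc, mul_div_cancel_right₀ _ hyj']
            · rw [dif_pos hi]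
              rfl
          show (if h : p.1 ≠ j then _ else _) / (if h : p.2 ≠ j then _ else _) = _
          rw [hval, hval]
          unfold Rt
          rw [div_div_div_cancel_right₀ hyj']
      refine (encard_le_mul _ _ ((n ^ 2 * bnd n) ^ k) hcov ?_).trans ?_
      · intro q
        refine (Set.encard_image_le _ _).trans ?_
        exact ih _ (hcard q) (by omega) L ι (coef q)
      · have hI : Nat.card I ≤ n ^ 2 * bnd n := by
          rw [Nat.card_eq_fintype_card]
          refine (Fintype.card_subtype_le _).trans ?_
          rw [Fintype.card_prod, Fintype.card_prod, Fintype.card_coe, hα, sq]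
          exact Nat.mul_le_mul (Nat.mul_le_mul hk hk) hT
        have h1 : Nat.card I * (n ^ 2 * bnd n) ^ k ≤ (n ^ 2 * bnd n) ^ (k + 1) := by
          rw [pow_succ, mul_comm]
          exact Nat.mul_le_mul le_rfl hI
        exact_mod_cast h1

end Pool.Agent.Y215.SP
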