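import Mathlib
import Pool.Agent.Y215.SP.Uni
import Pool.Agent.Y215.SP.LA
import Pool.Agent.H533R3.SL.Asm

set_option autoImplicit false

/-! # Points with multipliers of small height on varieties that are not uniruled -/

namespace Pool.Agent.Y215.SP

open Finset MvPolynomial Pool.Agent.Helper259.AbsHt Pool.Agent.H533R3.SL

variable {n N r : ℕ}

section curve

variable {k L : Type} [Field k] [Field L] [Algebra k L]

theorem GU_homog (c : Fin r → Fin (n + 1) → L) (F : MvPolynomial (Fin (n + 1)) k) (e : ℕ)
    (hF : F.IsHomogeneous e) (α : Fin r →₀ ℕ) (hα : α ∈ (GU c F).support) : ∑ j, α j = e := by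
  have h1 : (GU c F).IsHomogeneous (1 * e) := by
    unfold GU
    refine hF.aeval _ (fun i => ?_)
    refine MvPolynomial.IsHomogeneous.sum _ _ _ fun j _ => ?_
    simpa using (MvPolynomial.isHomogeneous_C (Fin r) (c j i)).mul
      (MvPolynomial.isHomogeneous_X L j)
  rw [one_mul] at h1
  have h2 := h1 (MvPolynomial.mem_support_iff.1 hα)
  rw [Finsupp.weight_apply, Finsupp.sum_fintype _ _ (by simp)] at h2
  simpa using h2

/-- evaluation of `F (∑ v_j U_j)` -/
theorem aeval_GU_hom {R : Type} [CommRing R] [Algebra L R] [Algebra k R] [IsScalarTower k L R]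
    (v : Fin r → Fin (n + 1) → L) (F : MvPolynomial (Fin (n + 1)) k) (s : Fin r → R) :
    aeval (fun i => ∑ j, algebraMap L R (v j i) * s j) F =
      (aeval s : MvPolynomial (Fin r) L →ₐ[L] R) (GU v F) := by
  have h2 := MvPolynomial.comp_aeval_apply (R := k)
    (fun i => ∑ j, MvPolynomial.C (v j i) * MvPolynomial.X j : Fin (n + 1) →
      MvPolynomial (Fin r) L)
    ((aeval s : MvPolynomial (Fin r) L →ₐ[L] R).restrictScalars k) F
  have h4 : (fun i => ((aeval s : MvPolynomial (Fin r) L →ₐ[L] R).restrictScalars k)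
      (∑ j, MvPolynomial.C (v j i) * MvPolynomial.X j)) =
      fun i => ∑ j, algebraMap L R (v j i) * s j := by
    funext i
    rw [map_sum]
    refine Finset.sum_congr rfl fun j _ => ?_
    simp
  rw [← h4]
  exact h2.symm

/-- evaluation of `F (∑ v_j U_j)` -/
theorem aeval_GU {R : Type} [CommRing R] [Algebra L R] [Algebra k R] [IsScalarTower k L R]
    (v : Fin r → Fin (n + 1) → L) (F : MvPolynomial (Fin (n + 1)) k) (s : Fin r → R) :
    aeval (fun i => ∑ j, algebraMap L R (v j i) * s j) F =
      ∑ α ∈ (GU v F).support, algebraMap L R (coeff α (GU v F)) * ∏ j, s j ^ (α j) := by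
  rw [aeval_GU_hom, MvPolynomial.aeval_def, MvPolynomial.eval₂_eq']

theorem cur_scaled_eq (s : Fin r → L) (v : Fin r → Fin (n + 1) → L) (l : Fin r → ℕ) :
    (fun i => ∑ j, algebraMap L (Polynomial L) (v j i) *
      (Polynomial.C (s j) * Polynomial.X ^ (l j))) = cur (fun j i => s j * v j i) l := by
  funext i
  unfold cur
  refine Finset.sum_congr rfl fun j _ => ?_
  rw [Polynomial.algebraMap_apply, Algebra.algebraMap_self, RingHom.id_apply, Polynomial.C_mul]
  ring

/-- if a scaled curve lies on some hypersurfaces then it lies on the others which are, after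
substitution, linear combinations -/
theorem cur_span {A : Type} (s : Fin r → L) (v : Fin r → Fin (n + 1) → L) (l : Fin r → ℕ)
    (P' : A → MvPolynomial (Fin (n + 1)) k)
    (h : ∀ a, aeval (cur (fun j i => s j * v j i) l) (P' a) = 0)
    (F : MvPolynomial (Fin (n + 1)) k)
    (hF : GU v F ∈ Submodule.span L (Set.range fun a => GU v (P' a))) :
    aeval (cur (fun j i => s j * v j i) l) F = 0 := by
  rw [← cur_scaled_eq, aeval_GU_hom]
  have h1 : Submodule.span L (Set.range fun a => GU v (P' a)) ≤
      LinearMap.ker (aeval (fun j => Polynomial.C (s j) * Polynomial.X ^ (l j)) :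
        MvPolynomial (Fin r) L →ₐ[L] Polynomial L).toLinearMap := by
    rw [Submodule.span_le]
    rintro _ ⟨a, rfl⟩
    have h2 := h a
    rw [← cur_scaled_eq, aeval_GU_hom] at h2
    exact h2
  exact h1 hF

/-- few of the forms suffice -/
theorem exists_few (v : Fin r → Fin (n + 1) → L) (P : Fin N → MvPolynomial (Fin (n + 1)) k)
    (d : ℕ) (hP : ∀ i, ∃ e, e ≤ d ∧ (P i).IsHomogeneous e) :
    ∃ P' : Fin ((d + 1) ^ r) → MvPolynomial (Fin (n + 1)) k,
      (∀ a, P' a = 0 ∨ ∃ i, P' a = P i) ∧
      ∀ i, GU v (P i) ∈ Submodule.span L (Set.range fun a => GU v (P' a)) := by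
  classical
  set S : Set (MvPolynomial (Fin r) L) := Set.range fun i => GU v (P i) with hS
  -- the monomials
  let mon : (Fin r → Fin (d + 1)) → MvPolynomial (Fin r) L := fun β =>
    MvPolynomial.monomial (Finsupp.equivFunOnFinite.symm fun j => (β j : ℕ)) 1
  have hsub : Submodule.span L S ≤ Submodule.span L (Set.range mon) := by
    rw [Submodule.span_le]
    rintro _ ⟨i, rfl⟩
    obtain ⟨e, he, hPe⟩ := hP i
    simp only
    rw [(GU v (P i)).as_sum]
    refine Submodule.sum_mem _ fun α hα => ?_
    have h1 : MvPolynomial.monomial α (coeff α (GU v (P i))) =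
        coeff α (GU v (P i)) • (MvPolynomial.monomial α (1 : L)) := by
      rw [MvPolynomial.smul_monomial, smul_eq_mul, mul_one]
    rw [h1]
    refine Submodule.smul_mem _ _ (Submodule.subset_span ⟨fun j => ⟨α j, ?_⟩, ?_⟩)
    · exact Nat.lt_succ_of_le ((GU_deg v (P i) e hPe α hα j).trans he)
    · show MvPolynomial.monomial _ _ = _
      congr 1
      ext j
      simp
  have hfd : FiniteDimensional L (Submodule.span L (Set.range mon)) :=
    FiniteDimensional.span_of_finite L (Set.finite_range mon)
  have hfd' : FiniteDimensional L (Submodule.span L S) :=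
    FiniteDimensional.span_of_finite L (Set.finite_range _)
  have hrank : Module.finrank L (Submodule.span L S) ≤ (d + 1) ^ r := by
    refine (Submodule.finrank_mono hsub).trans ?_
    refine (finrank_span_le_card (R := L) (Set.range mon)).trans ?_
    rw [Set.toFinset_range]
    refine Finset.card_image_le.trans ?_
    rw [Finset.card_univ, Fintype.card_fun, Fintype.card_fin, Fintype.card_fin]
  obtain ⟨f, hf, hfs, -⟩ := Submodule.exists_fun_fin_finrank_span_eq L S
  choose g hg using hf
  refine ⟨fun a => if h : (a : ℕ) < Module.finrank L (Submodule.span L S) then P (g ⟨a, h⟩) else 0,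
    fun a => ?_, fun i => ?_⟩
  · by_cases h : (a : ℕ) < Module.finrank L (Submodule.span L S)
    · right
      exact ⟨_, dif_pos h⟩
    · left
      exact dif_neg h
  · have h1 : GU v (P i) ∈ Submodule.span L (Set.range f) := by
      rw [hfs]
      exact Submodule.subset_span ⟨i, rfl⟩
    refine Submodule.span_mono ?_ h1
    rintro _ ⟨b, rfl⟩
    refine ⟨⟨b, lt_of_lt_of_le b.2 hrank⟩, ?_⟩
    simp only
    rw [dif_pos b.2]
    exact hg b

/-- evaluation of the curve -/
theorem aeval_cur_scaled (s : Fin r → L) (v : Fin r → Fin (n + 1) → L)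
    (F : MvPolynomial (Fin (n + 1)) k) (l : Fin r → ℕ) :
    aeval (cur (fun j i => s j * v j i) l) F =
      ∑ α ∈ (GU v F).support, Polynomial.C (coeff α (GU v F) * ∏ j, s j ^ (α j)) *
        Polynomial.X ^ (∑ j, α j * l j) := by
  have h1 := aeval_GU (R := Polynomial L) v F
    (fun j => Polynomial.C (s j) * Polynomial.X ^ (l j))
  have h2 : (fun i => ∑ j, algebraMap L (Polynomial L) (v j i) *
      (Polynomial.C (s j) * Polynomial.X ^ (l j))) = cur (fun j i => s j * v j i) l := by
    funext i
    unfold cur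
    refine Finset.sum_congr rfl fun j _ => ?_
    rw [Polynomial.algebraMap_apply, Algebra.algebraMap_self, RingHom.id_apply, Polynomial.C_mul]
    ring
  rw [h2] at h1
  rw [h1]
  refine Finset.sum_congr rfl fun α _ => ?_
  rw [Polynomial.algebraMap_apply, Algebra.algebraMap_self, RingHom.id_apply, Polynomial.C_mul,
    mul_assoc]
  congr 1
  rw [map_prod, ← Finset.prod_pow_eq_pow_sum, ← Finset.prod_mul_distrib]
  refine Finset.prod_congr rfl fun j _ => ?_
  rw [mul_pow, map_pow, ← pow_mul, mul_comm (α j) (l j)]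

/-- the curve lies on the hypersurface if the exponents are constant on the classes of the
coloring -/
theorem cur_zero (s : Fin r → L) (v : Fin r → Fin (n + 1) → L)
    (F : MvPolynomial (Fin (n + 1)) k) (l : Fin r → ℕ)
    (f : (GU v F).support → (GU v F).support)
    (hf : ∀ c, ∑ α ∈ Finset.univ.filter (fun α => f α = c),
      coeff (α : Fin r →₀ ℕ) (GU v F) * ∏ j, s j ^ ((α : Fin r →₀ ℕ) j) = 0)
    (hl : ∀ α β : (GU v F).support, f α = f β →
      ∑ j, (α : Fin r →₀ ℕ) j * l j = ∑ j, (β : Fin r →₀ ℕ) j * l j) :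
    aeval (cur (fun j i => s j * v j i) l) F = 0 := by
  classical
  rw [aeval_cur_scaled, ← Finset.sum_coe_sort (GU v F).support (fun α =>
    Polynomial.C (coeff α (GU v F) * ∏ j, s j ^ (α j)) * Polynomial.X ^ (∑ j, α j * l j)),
    ← Finset.sum_fiberwise (s := Finset.univ) (g := f)]
  refine Finset.sum_eq_zero fun c _ => ?_
  rcases (Finset.univ.filter (fun α => f α = c)).eq_empty_or_nonempty with h | ⟨α0, hα0⟩
  · rw [h, Finset.sum_empty]
  · have h1 : ∑ α ∈ Finset.univ.filter (fun α => f α = c),
        Polynomial.C (coeff (α : Fin r →₀ ℕ) (GU v F) * ∏ j, s j ^ ((α : Fin r →₀ ℕ) j)) *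
          Polynomial.X ^ (∑ j, (α : Fin r →₀ ℕ) j * l j) =
        ∑ α ∈ Finset.univ.filter (fun α => f α = c),
        Polynomial.C (coeff (α : Fin r →₀ ℕ) (GU v F) * ∏ j, s j ^ ((α : Fin r →₀ ℕ) j)) *
          Polynomial.X ^ (∑ j, (α0 : Fin r →₀ ℕ) j * l j) := by
      refine Finset.sum_congr rfl fun α hα => ?_
      rw [hl α α0 ((Finset.mem_filter.1 hα).2.trans (Finset.mem_filter.1 hα0).2.symm)]
    rw [h1, ← Finset.sum_mul, ← map_sum, hf c, map_zero, zero_mul]

/-- the partial sums of a constant curve are proportional to the point -/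
theorem part_prop (c : Fin r → Fin (n + 1) → L) (l : Fin r → ℕ)
    (hconst : ∀ i i', cur c l i * Polynomial.C (∑ j, c j i') =
      cur c l i' * Polynomial.C (∑ j, c j i)) (w : ℕ) (i i' : Fin (n + 1)) :
    (∑ j ∈ Finset.univ.filter (fun j => l j = w), c j i) * (∑ j, c j i') =
      (∑ j ∈ Finset.univ.filter (fun j => l j = w), c j i') * (∑ j, c j i) := by
  classical
  have hco : ∀ i, (cur c l i).coeff w = ∑ j ∈ Finset.univ.filter (fun j => l j = w), c j i := by
    intro i
    unfold cur
    rw [Polynomial.finsetSum_coeff, Finset.sum_filter]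
    refine Finset.sum_congr rfl fun j _ => ?_
    rw [Polynomial.coeff_C_mul_X_pow]
    by_cases h : l j = w
    · rw [if_pos h, if_pos h.symm]
    · rw [if_neg h, if_neg (fun h' => h h'.symm)]
  have h1 := congrArg (fun p => Polynomial.coeff p w) (hconst i i')
  simp only [Polynomial.coeff_mul_C, hco] at h1
  exact h1

end curve

/-- a monomial of degree `e` as a product of `e` variables -/
theorem exists_word (e : ℕ) (α : Fin r → ℕ) (h : ∑ j, α j = e) :
    ∃ I : Fin e → Fin r, ∀ t : Fin r → Qbar, ∏ a, t (I a) = ∏ j, t j ^ (α j) := by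
  have hc : Fintype.card (Σ j : Fin r, Fin (α j)) = e := by
    rw [Fintype.card_sigma]
    simpa using h
  let q := Fintype.equivFinOfCardEq hc
  refine ⟨fun a => (q.symm a).1, fun t => ?_⟩
  rw [Equiv.prod_comp q.symm (fun p => t p.1), Fintype.prod_sigma]
  refine Finset.prod_congr rfl fun j _ => ?_
  simp

/-- the height of a vector of monomials of the same degree -/
theorem height_monomials {A : Type} [Finite A] (e : ℕ) (m : A → Fin r → ℕ)
    (hm : ∀ a, ∑ j, m a j = e) (t : Fin r → Qbar) :
    absLogHeight (fun a => ∏ j, t j ^ (m a j)) ≤ e * absLogHeight t := by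
  choose I hI using fun a => exists_word e (m a) (hm a)
  have h1 : (fun a => ∏ j, t j ^ (m a j)) = (fun J : Fin e → Fin r => ∏ b, t (J b)) ∘ I := by
    funext a
    exact (hI a t).symm
  rw [h1, ← absLogHeight_veronese]
  exact absLogHeight_comp_le _ _

theorem card_supp {k L : Type} [Field k] [Field L] [Algebra k L] (v : Fin r → Fin (n + 1) → L)
    (F : MvPolynomial (Fin (n + 1)) k) (e d : ℕ) (he : e ≤ d) (hF : F.IsHomogeneous e) :
    (GU v F).support.card ≤ (d + 1) ^ r := by
  classical
  have h1 : (GU v F).support.card ≤ Fintype.card (Fin r → Fin (d + 1)) := by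
    rw [← Fintype.card_coe]
    refine Fintype.card_le_of_injective (fun α j => ⟨(α : Fin r →₀ ℕ) j,
      Nat.lt_succ_of_le ((GU_deg v F e hF α.1 α.2 j).trans he)⟩) ?_
    intro α β h
    apply Subtype.ext
    ext j
    have := congrFun h j
    simpa using this
  refine h1.trans (le_of_eq ?_)
  rw [Fintype.card_fun, Fintype.card_fin, Fintype.card_fin]

end Pool.Agent.Y215.SP
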