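import Mathlib
import Pool.Agent.Helper259.AbsHt

set_option autoImplicit false

/-! # Linear combinations of vectors with multipliers of small height -/

namespace Pool.Agent.Y215.SP

open MvPolynomial Pool.Agent.Helper259.AbsHt

variable {n N r : ℕ}

/-- the vector `∑ t_j v_j` -/
noncomputable def pt {L : Type} [Field L] (ι : Qbar →+* L) (v : Fin r → Fin (n + 1) → L)
    (t : Fin r → Qbar) (i : Fin (n + 1)) : L := ∑ j, ι (t j) * v j i

/-- the points of projective space over `L` with homogeneous coordinates `∑ t_j v_j`, for algebraic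
numbers `t_j` such that `(t_1 : … : t_r)` has height less than `ε`, which are zeros of the `P_i` and
not of `G` -/
def smallOff {k L : Type} [Field k] [Field L] [Algebra k L] (ι : Qbar →+* L)
    (P : Fin N → MvPolynomial (Fin (n + 1)) k) (G : MvPolynomial (Fin (n + 1)) k) (ε : ℝ)
    (v : Fin r → Fin (n + 1) → L) : Set (Projectivization L (Fin (n + 1) → L)) :=
  {p | ∃ t : Fin r → Qbar, absLogHeight t < ε ∧
    (∀ i, aeval (pt ι v t) (P i) = 0) ∧ aeval (pt ι v t) G ≠ 0 ∧
    ∃ h : pt ι v t ≠ 0, p = Projectivization.mk L (pt ι v t) h}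

/-- the points `∑ ζ_j v_j` with roots of unity `ζ_j`, on `P = 0` and off `G = 0` -/
def torsOff {k L : Type} [Field k] [Field L] [Algebra k L]
    (P : Fin N → MvPolynomial (Fin (n + 1)) k) (G : MvPolynomial (Fin (n + 1)) k)
    (v : Fin r → Fin (n + 1) → L) : Set (Projectivization L (Fin (n + 1) → L)) :=
  {p | ∃ ζ : Fin r → L, (∀ j, ∃ m : ℕ, 0 < m ∧ ζ j ^ m = 1) ∧
    (∀ i, aeval (fun a => ∑ j, ζ j * v j a) (P i) = 0) ∧
    aeval (fun a => ∑ j, ζ j * v j a) G ≠ 0 ∧
    ∃ h : (fun a => ∑ j, ζ j * v j a) ≠ 0, p = Projectivization.mk L _ h}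

end Pool.Agent.Y215.SP
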