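import Mathlib
import Pool.Agent.Y215.SP.Asm
import Pool.Agent.Y215.SP.Defs

set_option autoImplicit false

/-! # The number of points with small multipliers outside a proper closed subset -/

namespace Pool.Agent.Y215.SP

open Finset MvPolynomial Pool.Agent.Helper259.AbsHt Pool.Agent.H533R3.SL

variable {n N r : ℕ}

/-- the Laurent monomial `∏ t_j ^ (w_j)` -/
noncomputable def chr (t : Fin r → Qbar) (w : Fin r → ℤ) : Qbar := ∏ j, t j ^ w j

theorem chr_closure (t t' : Fin r → Qbar) (ht : ∀ j, t j ≠ 0) (ht' : ∀ j, t' j ≠ 0)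
    (W : Set (Fin r → ℤ)) (h : ∀ w ∈ W, chr t w = chr t' w) (w : Fin r → ℤ)
    (hw : w ∈ AddSubgroup.closure W) : chr t w = chr t' w := by
  induction hw using AddSubgroup.closure_induction with
  | mem x hx => exact h x hx
  | zero => simp [chr]
  | add x y _ _ hx hy =>
    have h1 : ∀ s : Fin r → Qbar, (∀ j, s j ≠ 0) → chr s (x + y) = chr s x * chr s y := by
      intro s hs
      unfold chr
      rw [← Finset.prod_mul_distrib]
      refine Finset.prod_congr rfl fun j _ => ?_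
      rw [Pi.add_apply, zpow_add₀ (hs j)]
    rw [h1 t ht, h1 t' ht', hx, hy]
  | neg x _ hx =>
    have h1 : ∀ s : Fin r → Qbar, chr s (-x) = (chr s x)⁻¹ := by
      intro s
      unfold chr
      rw [← Finset.prod_inv_distrib]
      refine Finset.prod_congr rfl fun j _ => ?_
      rw [Pi.neg_apply, zpow_neg]
    rw [h1 t, h1 t', hx]

theorem chr_single (t : Fin r → Qbar) (ht : ∀ j, t j ≠ 0) (E : ℕ) (j j' : Fin r) :
    chr t ((E : ℤ) • (Pi.single j 1 - Pi.single j' 1)) = (t j / t j') ^ E := by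
  classical
  have h1 : ∀ (a : ℤ) (j : Fin r), ∏ i, t i ^ (a * (Pi.single j 1 : Fin r → ℤ) i) = t j ^ a := by
    intro a j
    rw [Finset.prod_eq_single j]
    · simp
    · intro i _ hi
      simp [hi]
    · intro h
      exact absurd (Finset.mem_univ _) h
  unfold chr
  have h2 : ∀ i, t i ^ (((E : ℤ) • (Pi.single j 1 - Pi.single j' 1) : Fin r → ℤ) i) =
      t i ^ ((E : ℤ) * (Pi.single j 1 : Fin r → ℤ) i) *
        (t i ^ ((E : ℤ) * (Pi.single j' 1 : Fin r → ℤ) i))⁻¹ := by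
    intro i
    rw [← zpow_neg, ← zpow_add₀ (ht i)]
    congr 1
    simp only [Pi.smul_apply, Pi.sub_apply, smul_eq_mul]
    ring
  simp_rw [h2]
  rw [Finset.prod_mul_distrib, Finset.prod_inv_distrib, h1, h1, div_pow, zpow_natCast,
    zpow_natCast, div_eq_mul_inv]

/-- the differences of the pairs in `Q` -/
def WQ (d : ℕ) (Q : Finset ((Fin r → Fin (d + 1)) × (Fin r → Fin (d + 1)))) :
    Set (Fin r → ℤ) :=
  {w | ∃ q ∈ Q, w = fun j => ((q.1 j : ℕ) : ℤ) - ((q.2 j : ℕ) : ℤ)}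

open Classical in
/-- an exponent for `W` -/
noncomputable def Eexp (W : Set (Fin r → ℤ)) (j j' : Fin r) : ℕ :=
  if h : ∃ E : ℕ, 1 ≤ E ∧ (E : ℤ) • (Pi.single j 1 - Pi.single j' 1 : Fin r → ℤ) ∈
    AddSubgroup.closure W then h.choose else 1

theorem Eexp_pos (W : Set (Fin r → ℤ)) (j j' : Fin r) : 1 ≤ Eexp W j j' := by
  classical
  unfold Eexp
  split_ifs with h
  · exact h.choose_spec.1
  · exact le_rfl

/-- a common exponent -/
noncomputable def Euni (d r : ℕ) : ℕ :=
  ∏ Q : Finset ((Fin r → Fin (d + 1)) × (Fin r → Fin (d + 1))), ∏ j : Fin r, ∏ j' : Fin r,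
    Eexp (WQ d Q) j j'

theorem Euni_pos (d r : ℕ) : 1 ≤ Euni d r := by
  unfold Euni
  refine Nat.succ_le_of_lt (Finset.prod_pos fun Q _ => Finset.prod_pos fun j _ =>
    Finset.prod_pos fun j' _ => ?_)
  exact Nat.lt_of_succ_le (Eexp_pos _ _ _)

theorem Euni_spec (d : ℕ) (Q : Finset ((Fin r → Fin (d + 1)) × (Fin r → Fin (d + 1))))
    (j j' : Fin r) (h : ∃ E : ℕ, 1 ≤ E ∧
      (E : ℤ) • (Pi.single j 1 - Pi.single j' 1 : Fin r → ℤ) ∈ AddSubgroup.closure (WQ d Q)) :
    ((Euni d r : ℕ) : ℤ) • (Pi.single j 1 - Pi.single j' 1 : Fin r → ℤ) ∈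
      AddSubgroup.closure (WQ d Q) := by
  classical
  have h1 : Eexp (WQ d Q) j j' ∣ Euni d r := by
    unfold Euni
    refine dvd_trans ?_ (Finset.dvd_prod_of_mem _ (Finset.mem_univ Q))
    refine dvd_trans ?_ (Finset.dvd_prod_of_mem _ (Finset.mem_univ j))
    exact Finset.dvd_prod_of_mem _ (Finset.mem_univ j')
  obtain ⟨c, hc⟩ := h1
  have h2 : ((Eexp (WQ d Q) j j' : ℕ) : ℤ) • (Pi.single j 1 - Pi.single j' 1 : Fin r → ℤ) ∈
      AddSubgroup.closure (WQ d Q) := by
    unfold Eexp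
    rw [dif_pos h]
    exact h.choose_spec.2
  rw [hc]
  push_cast
  rw [mul_comm, mul_smul]
  exact zsmul_mem h2 _

/-- codes for roots -/
theorem exists_root_code (E : ℕ) (hE : 1 ≤ E) :
    ∃ e : Qbar → Fin E, ∀ z z' : Qbar, z ^ E = z' ^ E → e z = e z' → z = z' := by
  classical
  have h1 : ∀ κ : Qbar, {z : Qbar | z ^ E = κ}.encard ≤ E := by
    intro κ
    have h2 : {z : Qbar | z ^ E = κ} ⊆ ((Polynomial.nthRoots E κ).toFinset : Set Qbar) := by
      intro z hz
      rw [Finset.mem_coe, Multiset.mem_toFinset, Polynomial.mem_nthRoots (by omega)]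
      exact hz
    refine (Set.encard_le_encard h2).trans ?_
    rw [Set.encard_coe_eq_coe_finsetCard]
    exact_mod_cast (Multiset.toFinset_card_le _).trans (Polynomial.card_nthRoots E κ)
  choose e he using fun κ => exists_enc {z : Qbar | z ^ E = κ} E hE (h1 κ)
  refine ⟨fun z => e (z ^ E) z, fun z z' h h' => ?_⟩
  refine he (z ^ E) z rfl z' h.symm ?_
  have h2 : e (z ^ E) z = e (z' ^ E) z' := h'
  rw [h2, h]

section

variable {k L : Type} [Field k] [Field L] [Algebra k L]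

/-- the exponents of `F (∑ v_j U_j)` -/
abbrev Sp (v : Fin r → Fin (n + 1) → L) (F : MvPolynomial (Fin (n + 1)) k) : Type :=
  {α : Fin r →₀ ℕ // α ∈ (GU v F).support}

/-- a coloring of the terms of `F (∑ v_j t_j)`, given by minimal vanishing subsums -/
def Col (ι : Qbar →+* L) (v : Fin r → Fin (n + 1) → L) (F : MvPolynomial (Fin (n + 1)) k)
    (t : Fin r → Qbar) (f : Sp v F → Sp v F) : Prop :=
  ∀ c, ∑ α ∈ Finset.univ.filter (fun α => f α = c),
      coeff (α : Fin r →₀ ℕ) (GU v F) * ∏ j, ι (t j) ^ ((α : Fin r →₀ ℕ) j) = 0 ∧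
    ∀ A ⊆ Finset.univ.filter (fun α => f α = c), A.Nonempty →
      A ≠ Finset.univ.filter (fun α => f α = c) →
      ∑ α ∈ A, coeff (α : Fin r →₀ ℕ) (GU v F) * ∏ j, ι (t j) ^ ((α : Fin r →₀ ℕ) j) ≠ 0

theorem exists_col (ι : Qbar →+* L) (v : Fin r → Fin (n + 1) → L)
    (F : MvPolynomial (Fin (n + 1)) k) (t : Fin r → Qbar) (h0 : aeval (pt ι v t) F = 0) :
    ∃ f, Col ι v F t f := by
  classical
  obtain ⟨f, hf⟩ := coloring (S := Sp v F) (fun α => coeff (α : Fin r →₀ ℕ) (GU v F) *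
    ∏ j, ι (t j) ^ ((α : Fin r →₀ ℕ) j)) (by
      have h1 := aeval_GU (R := L) v F (fun j => ι (t j))
      have h2 : (fun i => ∑ j, algebraMap L L (v j i) * ι (t j)) = pt ι v t := by
        funext i
        refine Finset.sum_congr rfl fun j _ => ?_
        rw [Algebra.algebraMap_self, RingHom.id_apply, mul_comm]
      rw [h2, h0] at h1
      rw [h1, ← Finset.sum_coe_sort (GU v F).support]
      rfl)
  refine ⟨f, fun c => ?_⟩
  convert hf c

/-- codes for the ratios of the monomials in a class -/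
theorem exists_ratio_code (ι : Qbar →+* L) (v : Fin r → Fin (n + 1) → L)
    (F : MvPolynomial (Fin (n + 1)) k) (d : ℕ) (hd : 1 ≤ d) (e : ℕ) (he : e ≤ d)
    (hF : F.IsHomogeneous e) (f : Sp v F → Sp v F) (c : Sp v F) :
    ∃ g : (Fin r → Qbar) → Fin ((((d + 1) ^ r) ^ 2 * bnd ((d + 1) ^ r)) ^ ((d + 1) ^ r)),
      ∀ t t' : Fin r → Qbar, (∀ j, t j ≠ 0) → (∀ j, t' j ≠ 0) →
        absLogHeight t < epsn ((d + 1) ^ r) / d → absLogHeight t' < epsn ((d + 1) ^ r) / d →
        Col ι v F t f → Col ι v F t' f → g t = g t' →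
        ∀ α β : Sp v F, f α = c → f β = c →
          (∏ j, t j ^ ((α : Fin r →₀ ℕ) j)) / (∏ j, t j ^ ((β : Fin r →₀ ℕ) j)) =
          (∏ j, t' j ^ ((α : Fin r →₀ ℕ) j)) / (∏ j, t' j ^ ((β : Fin r →₀ ℕ) j)) := by
  classical
  set m := (d + 1) ^ r with hm
  have hm1 : 1 ≤ m := Nat.one_le_pow _ _ (by omega)
  have hb1 : 1 ≤ m ^ 2 * bnd m := by
    have : 0 < bnd m := by unfold bnd; positivity
    have h2 : 0 < m ^ 2 := by positivity
    exact Nat.succ_le_of_lt (Nat.mul_pos h2 this)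
  have hB1 : 1 ≤ (m ^ 2 * bnd m) ^ m := Nat.one_le_pow _ _ hb1
  let T := {α : Sp v F // f α = c}
  let a : T → L := fun α => coeff (α.1 : Fin r →₀ ℕ) (GU v F)
  let y : (Fin r → Qbar) → T → Qbar := fun t α => ∏ j, t j ^ ((α.1 : Fin r →₀ ℕ) j)
  have hcard : Fintype.card T ≤ m := by
    refine (Fintype.card_subtype_le _).trans ?_
    rw [Fintype.card_coe]
    exact card_supp v F e d he hF
  have hset : (Rt '' SolS ι (epsn m) a).encard ≤ ((m ^ 2 * bnd m) ^ m : ℕ) := by
    refine (uniform m _ T rfl hcard L ι a).trans ?_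
    exact_mod_cast Nat.pow_le_pow_right hb1 hcard
  obtain ⟨g, hg⟩ := exists_enc _ _ hB1 hset
  refine ⟨fun t => g (Rt (y t)), ?_⟩
  have hsol : ∀ t : Fin r → Qbar, (∀ j, t j ≠ 0) → absLogHeight t < epsn m / d →
      Col ι v F t f → y t ∈ SolS ι (epsn m) a := by
    intro t ht hth hcol
    have hmap : ∀ A : Finset T, ∑ α ∈ A, a α * ι (y t α) =
        ∑ α ∈ A.map (Function.Embedding.subtype _),
          coeff (α : Fin r →₀ ℕ) (GU v F) * ∏ j, ι (t j) ^ ((α : Fin r →₀ ℕ) j) := by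
      intro A
      rw [Finset.sum_map]
      refine Finset.sum_congr rfl fun α _ => ?_
      show a α * ι (∏ j, t j ^ ((α.1 : Fin r →₀ ℕ) j)) = _
      rw [map_prod]
      simp_rw [map_pow]
      rfl
    have hu : (Finset.univ : Finset T).map (Function.Embedding.subtype _) =
        Finset.univ.filter (fun α => f α = c) := by
      ext α
      simp [T]
    refine ⟨fun α => Finset.prod_ne_zero_iff.2 fun j _ => pow_ne_zero _ (ht j), ?_, ?_, ?_⟩
    · have h1 := height_monomials (A := T) e (fun α j => (α.1 : Fin r →₀ ℕ) j)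
        (fun α => GU_homog v F e hF _ α.1.2) t
      refine lt_of_le_of_lt h1 ?_
      have hd0 : (0 : ℝ) < d := by exact_mod_cast hd
      have h2 : (e : ℝ) ≤ d := by exact_mod_cast he
      have h3 : 0 ≤ absLogHeight t := absLogHeight_nonneg t
      calc (e : ℝ) * absLogHeight t ≤ d * absLogHeight t := mul_le_mul_of_nonneg_right h2 h3
        _ < d * (epsn m / d) := mul_lt_mul_of_pos_left hth hd0
        _ = epsn m := by field_simp
    · rw [hmap, hu]
      exact (hcol c).1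
    · intro A hA hAu
      rw [hmap]
      refine (hcol c).2 _ ?_ (hA.map) ?_
      · rw [← hu]
        exact Finset.map_subset_map.2 (Finset.subset_univ _)
      · rw [← hu]
        intro h
        exact hAu (Finset.map_injective _ h)
  intro t t' ht ht' hth hth' hcol hcol' hgg α β hα hβ
  have h1 := hg _ ⟨_, hsol t ht hth hcol, rfl⟩ _ ⟨_, hsol t' ht' hth' hcol', rfl⟩ hgg
  exact congrFun h1 (⟨α, hα⟩, ⟨β, hβ⟩)

end

end Pool.Agent.Y215.SP
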