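import Mathlib
import Pool.Agent.Y215.SP.Core

set_option autoImplicit false

/-! # The number of points with small multipliers outside a proper closed subset: main theorem -/

namespace Pool.Agent.Y215.SP

open Finset MvPolynomial Pool.Agent.Helper259.AbsHt Pool.Agent.H533R3.SL

variable {n N r : ℕ}

section

variable {k L : Type} [Field k] [Field L] [Algebra k L]

/-- the differences of the exponents in the same class -/
def Wf (P : Fin N → MvPolynomial (Fin (n + 1)) k) (v : Fin r → Fin (n + 1) → L)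
    (f : ∀ i, Sp v (P i) → Sp v (P i)) : Set (Fin r → ℤ) :=
  {w | ∃ i, ∃ α β : Sp v (P i), f i α = f i β ∧
    w = fun j => (((α : Fin r →₀ ℕ) j : ℕ) : ℤ) - (((β : Fin r →₀ ℕ) j : ℕ) : ℤ)}

theorem Wf_eq_WQ (P : Fin N → MvPolynomial (Fin (n + 1)) k) (d : ℕ)
    (hP : ∀ i, ∃ e, e ≤ d ∧ (P i).IsHomogeneous e) (v : Fin r → Fin (n + 1) → L)
    (f : ∀ i, Sp v (P i) → Sp v (P i)) :
    ∃ Q : Finset ((Fin r → Fin (d + 1)) × (Fin r → Fin (d + 1))), WQ d Q = Wf P v f := by
  classical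
  have hle : ∀ i (α : Sp v (P i)) j, (α : Fin r →₀ ℕ) j < d + 1 := by
    intro i α j
    obtain ⟨e, he, hPe⟩ := hP i
    exact Nat.lt_succ_of_le ((GU_deg v (P i) e hPe α.1 α.2 j).trans he)
  refine ⟨Finset.univ.filter (fun q => (fun j => ((q.1 j : ℕ) : ℤ) - ((q.2 j : ℕ) : ℤ)) ∈
    Wf P v f), ?_⟩
  ext w
  constructor
  · rintro ⟨q, hq, rfl⟩
    exact (Finset.mem_filter.1 hq).2
  · rintro ⟨i, α, β, hf, rfl⟩
    refine ⟨(fun j => ⟨_, hle i α j⟩, fun j => ⟨_, hle i β j⟩), ?_, rfl⟩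
    rw [Finset.mem_filter]
    exact ⟨Finset.mem_univ _, i, α, β, hf, rfl⟩

theorem Wf_sum (P : Fin N → MvPolynomial (Fin (n + 1)) k)
    (hP : ∀ i, ∃ e, (P i).IsHomogeneous e) (v : Fin r → Fin (n + 1) → L)
    (f : ∀ i, Sp v (P i) → Sp v (P i)) : ∀ w ∈ Wf P v f, ∑ i, w i = 0 := by
  rintro _ ⟨i, α, β, -, rfl⟩
  obtain ⟨e, he⟩ := hP i
  rw [Finset.sum_sub_distrib]
  have h1 := GU_homog v (P i) e he _ α.2
  have h2 := GU_homog v (P i) e he _ β.2
  have h3 : (∑ x, (((α : Fin r →₀ ℕ) x : ℕ) : ℤ)) = (e : ℤ) := by exact_mod_cast h1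
  have h4 : (∑ x, (((β : Fin r →₀ ℕ) x : ℕ) : ℤ)) = (e : ℤ) := by exact_mod_cast h2
  rw [h3, h4, sub_self]

end

/-- the points `∑ t_j v_j` with multipliers of height less than `ε`, different from zero,
on `P = 0` and off `G = 0` -/
def Off0 {k L : Type} [Field k] [Field L] [Algebra k L] (ι : Qbar →+* L)
    (P : Fin N → MvPolynomial (Fin (n + 1)) k) (G : MvPolynomial (Fin (n + 1)) k) (ε : ℝ)
    (v : Fin r → Fin (n + 1) → L) : Set (Projectivization L (Fin (n + 1) → L)) :=
  {p | ∃ t : Fin r → Qbar, (∀ j, t j ≠ 0) ∧ absLogHeight t < ε ∧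
    (∀ i, aeval (pt ι v t) (P i) = 0) ∧ aeval (pt ι v t) G ≠ 0 ∧
    ∃ h : pt ι v t ≠ 0, p = Projectivization.mk L (pt ι v t) h}

/-- the number of ratio vectors -/
def Bm (d r : ℕ) : ℕ := (((d + 1) ^ r) ^ 2 * bnd ((d + 1) ^ r)) ^ ((d + 1) ^ r)

/-- the bound -/
noncomputable def M0 (N d r : ℕ) : ℕ :=
  ((((d + 1) ^ r) ^ ((d + 1) ^ r)) * Bm d r ^ ((d + 1) ^ r)) ^ N * ((r + 1) * Euni d r ^ r)

theorem encard_le_of_data {γ β : Type} [Fintype β] (S : Set γ) (D : γ → β)
    (h : ∀ p ∈ S, ∀ q ∈ S, D p = D q → p = q) : S.encard ≤ (Fintype.card β : ℕ∞) := by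
  classical
  have h1 : Set.InjOn D S := fun p hp q hq hpq => h p hp q hq hpq
  rw [← h1.encard_image]
  refine (Set.encard_le_encard (Set.subset_univ _)).trans ?_
  rw [Set.encard_univ, ENat.card_eq_coe_fintype_card]

theorem card_off0 {k : Type} [Field k] (P : Fin N → MvPolynomial (Fin (n + 1)) k) (d : ℕ)
    (hd : 1 ≤ d) (hP : ∀ i, ∃ e, e ≤ d ∧ (P i).IsHomogeneous e)
    (G : MvPolynomial (Fin (n + 1)) k)
    {L : Type} [Field L] [Algebra k L]
    (ι : Qbar →+* L) (v : Fin r → Fin (n + 1) → L)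
    (hG : ∀ (s : Fin r → L) (l : Fin r → ℕ),
        (∀ i, MvPolynomial.aeval (cur (fun j i => s j * v j i) l) (P i) = 0) →
        (∃ i i', cur (fun j i => s j * v j i) l i * Polynomial.C (∑ j, s j * v j i') ≠
          cur (fun j i => s j * v j i) l i' * Polynomial.C (∑ j, s j * v j i)) →
        MvPolynomial.aeval (fun i => ∑ j, s j * v j i) G = 0) :
    (Off0 ι P G (epsn ((d + 1) ^ r) / d) v).encard ≤ (M0 N d r : ℕ∞) := by
  classical
  choose e0 he0 hPe using hP
  set m := (d + 1) ^ r with hm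
  have hm1 : 1 ≤ m := Nat.one_le_pow _ _ (by omega)
  -- codes
  choose g hg using fun (i : Fin N) (f : Sp v (P i) → Sp v (P i)) (c : Sp v (P i)) =>
    exists_ratio_code ι v (P i) d hd (e0 i) (he0 i) (hPe i) f c
  obtain ⟨re, hre⟩ := exists_root_code (Euni d r) (Euni_pos d r)
  -- exponents
  choose lf hlf hgen using fun (f : ∀ i, Sp v (P i) → Sp v (P i)) =>
    exists_gen (Wf P v f) (Wf_sum P (fun i => ⟨_, hPe i⟩) v f)
  -- multipliers of a point
  have hch : ∀ p : Projectivization L (Fin (n + 1) → L), ∃ t : Fin r → Qbar,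
      p ∈ Off0 ι P G (epsn m / d) v → (∀ j, t j ≠ 0) ∧ absLogHeight t < epsn m / d ∧
        (∀ i, aeval (pt ι v t) (P i) = 0) ∧ aeval (pt ι v t) G ≠ 0 ∧
        ∃ h : pt ι v t ≠ 0, p = Projectivization.mk L (pt ι v t) h := by
    intro p
    by_cases hp : p ∈ Off0 ι P G (epsn m / d) v
    · obtain ⟨t, ht⟩ := hp
      exact ⟨t, fun _ => ht⟩
    · exact ⟨0, fun h => absurd h hp⟩
  choose tt htt using hch
  -- colorings
  have hcol : ∀ (p : Projectivization L (Fin (n + 1) → L)) (i : Fin N),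
      ∃ f : Sp v (P i) → Sp v (P i), p ∈ Off0 ι P G (epsn m / d) v → Col ι v (P i) (tt p) f := by
    intro p i
    by_cases hp : p ∈ Off0 ι P G (epsn m / d) v
    · obtain ⟨f, hf⟩ := exists_col ι v (P i) (tt p) ((htt p hp).2.2.1 i)
      exact ⟨f, fun _ => hf⟩
    · exact ⟨id, fun h => absurd h hp⟩
  choose ff hff using hcol
  -- the point is proportional to the partial sums
  have hprop : ∀ p ∈ Off0 ι P G (epsn m / d) v, ∀ (w : ℕ) (a b : Fin (n + 1)),
      (∑ j ∈ Finset.univ.filter (fun j => lf (ff p) j = w), ι (tt p j) * v j a) *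
        pt ι v (tt p) b =
      (∑ j ∈ Finset.univ.filter (fun j => lf (ff p) j = w), ι (tt p j) * v j b) *
        pt ι v (tt p) a := by
    intro p hp w a b
    refine part_prop (fun j i => ι (tt p j) * v j i) (lf (ff p)) ?_ w a b
    by_contra hne
    push Not at hne
    apply (htt p hp).2.2.2.1
    refine hG (fun j => ι (tt p j)) (lf (ff p)) ?_ hne
    intro i
    refine cur_zero (fun j => ι (tt p j)) v (P i) (lf (ff p)) (ff p i)
      (fun c => ?_) ?_
    · exact (hff p i hp c).1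
    · intro α β hαβ
      have h1 := hlf (ff p) _ ⟨i, α, β, hαβ, rfl⟩
      have h2 : ∑ j, ((lf (ff p) j : ℕ) : ℤ) * ((((α : Fin r →₀ ℕ) j : ℕ) : ℤ) -
          (((β : Fin r →₀ ℕ) j : ℕ) : ℤ)) = 0 := h1
      simp_rw [mul_sub] at h2
      rw [Finset.sum_sub_distrib, sub_eq_zero] at h2
      have h3 : ((∑ j, (α : Fin r →₀ ℕ) j * lf (ff p) j : ℕ) : ℤ) =
          ((∑ j, (β : Fin r →₀ ℕ) j * lf (ff p) j : ℕ) : ℤ) := by
        push_cast
        simp_rw [mul_comm _ ((lf (ff p) _ : ℕ) : ℤ)]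
        exact h2
      exact_mod_cast h3
  -- a class with nonzero partial sum
  have hj0 : ∀ p, ∃ j0 : Option (Fin r), p ∈ Off0 ι P G (epsn m / d) v → ∃ j1, j0 = some j1 ∧
      ∃ a, ∑ j ∈ Finset.univ.filter (fun j => lf (ff p) j = lf (ff p) j1),
        ι (tt p j) * v j a ≠ 0 := by
    intro p
    by_cases hp : p ∈ Off0 ι P G (epsn m / d) v
    · obtain ⟨h0, -⟩ := (htt p hp).2.2.2.2
      obtain ⟨a, ha⟩ := Function.ne_iff.1 h0
      have h1 : ∑ w ∈ Finset.univ.image (lf (ff p)), ∑ j ∈ Finset.univ.filter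
          (fun j => lf (ff p) j = w), ι (tt p j) * v j a ≠ 0 := by
        rw [Finset.sum_fiberwise_of_maps_to (fun j _ => Finset.mem_image_of_mem _ (Finset.mem_univ j))]
        exact ha
      obtain ⟨w, hw, hw0⟩ := Finset.exists_ne_zero_of_sum_ne_zero h1
      obtain ⟨j1, _, rfl⟩ := Finset.mem_image.1 hw
      exact ⟨some j1, fun _ => ⟨j1, rfl, a, hw0⟩⟩
    · exact ⟨none, fun h => absurd h hp⟩
  choose j0 hj0 using hj0
  -- the data
  let D : Projectivization L (Fin (n + 1) → L) →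
      ((∀ i : Fin N, (Sp v (P i) → Sp v (P i)) × (Sp v (P i) → Fin (Bm d r))) ×
        (Option (Fin r) × (Fin r → Fin (Euni d r)))) := fun p =>
    (fun i => (ff p i, fun c => g i (ff p i) c (tt p)),
      (j0 p, fun j => re (tt p j / (j0 p).elim 1 (tt p))))
  have hinj : ∀ p ∈ Off0 ι P G (epsn m / d) v, ∀ q ∈ Off0 ι P G (epsn m / d) v,
      D p = D q → p = q := by
    intro p hp q hq hD
    have hf : ff p = ff q := by
      funext i
      have h1 := congrFun (congrArg Prod.fst hD) i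
      exact congrArg Prod.fst h1
    have hcode : ∀ i c, g i (ff p i) c (tt p) = g i (ff q i) c (tt q) := by
      intro i c
      have h1 := congrFun (congrArg Prod.fst hD) i
      exact congrFun (congrArg Prod.snd h1) c
    have hjj : j0 p = j0 q := congrArg Prod.fst (congrArg Prod.snd hD)
    have hroot : ∀ j, re (tt p j / (j0 p).elim 1 (tt p)) =
        re (tt q j / (j0 q).elim 1 (tt q)) := fun j =>
      congrFun (congrArg Prod.snd (congrArg Prod.snd hD)) j
    obtain ⟨hpt, hph, hpz, hpG, hp0, hpm⟩ := htt p hp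
    obtain ⟨hqt, hqh, hqz, hqG, hq0, hqm⟩ := htt q hq
    obtain ⟨j1, hj1, a0, ha0⟩ := hj0 p hp
    -- characters agree on `Wf`
    have hchr : ∀ w ∈ Wf P v (ff p), chr (tt p) w = chr (tt q) w := by
      rintro _ ⟨i, α, β, hαβ, rfl⟩
      have hcq : Col ι v (P i) (tt q) (ff p i) := by
        rw [hf]
        exact hff q i hq
      have h1 := hg i (ff p i) (ff p i β) (tt p) (tt q) hpt hqt hph hqh (hff p i hp) hcq
        (by rw [hcode i]; rw [hf]) α β hαβ rfl
      have h2 : ∀ s : Fin r → Qbar, (∀ j, s j ≠ 0) →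
          chr s (fun j => (((α : Fin r →₀ ℕ) j : ℕ) : ℤ) - (((β : Fin r →₀ ℕ) j : ℕ) : ℤ)) =
          (∏ j, s j ^ ((α : Fin r →₀ ℕ) j)) / (∏ j, s j ^ ((β : Fin r →₀ ℕ) j)) := by
        intro s hs
        unfold chr
        rw [← Finset.prod_div_distrib]
        refine Finset.prod_congr rfl fun j _ => ?_
        rw [zpow_sub₀ (hs j), zpow_natCast, zpow_natCast]
      rw [h2 _ hpt, h2 _ hqt]
      exact h1
    -- the ratios in the class agree
    have hrat : ∀ j, lf (ff p) j = lf (ff p) j1 → tt p j / tt p j1 = tt q j / tt q j1 := by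
      intro j hj
      have h1 := hroot j
      rw [← hjj, hj1] at h1
      refine hre _ _ ?_ h1
      show (tt p j / tt p j1) ^ Euni d r = (tt q j / tt q j1) ^ Euni d r
      rw [← chr_single _ hpt, ← chr_single _ hqt]
      refine chr_closure _ _ hpt hqt (Wf P v (ff p)) hchr _ ?_
      obtain ⟨Q, hQ⟩ := Wf_eq_WQ P d (fun i => ⟨e0 i, he0 i, hPe i⟩) v (ff p)
      rw [← hQ]
      refine Euni_spec d Q j j1 ?_
      rw [hQ]
      rcases dichot (Wf P v (ff p)) (Pi.single j 1 - Pi.single j1 1) with ⟨l', hl', hne⟩ | h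
      · exfalso
        apply hne
        have h2 := hgen (ff p) j j1 hj l' hl'
        simp only [Pi.sub_apply, mul_sub, Finset.sum_sub_distrib, Pi.single_apply, mul_ite,
          mul_one, mul_zero, Finset.sum_ite_eq', Finset.mem_univ, if_true]
        rw [h2, sub_self]
      · exact h
    -- partial sums are proportional
    set Sp' : Fin (n + 1) → L := fun a =>
      ∑ j ∈ Finset.univ.filter (fun j => lf (ff p) j = lf (ff p) j1), ι (tt p j) * v j a with hSp
    set Sq' : Fin (n + 1) → L := fun a =>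
      ∑ j ∈ Finset.univ.filter (fun j => lf (ff p) j = lf (ff p) j1), ι (tt q j) * v j a with hSq
    have hSpq : ∀ a, Sp' a * ι (tt q j1) = Sq' a * ι (tt p j1) := by
      intro a
      rw [hSp, hSq]
      simp only
      rw [Finset.sum_mul, Finset.sum_mul]
      refine Finset.sum_congr rfl fun j hj => ?_
      have h1 := hrat j (Finset.mem_filter.1 hj).2
      rw [div_eq_div_iff (hpt j1) (hqt j1)] at h1
      have h2 := congrArg ι h1
      rw [map_mul, map_mul] at h2
      calc ι (tt p j) * v j a * ι (tt q j1) = (ι (tt p j) * ι (tt q j1)) * v j a := by ring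
        _ = ι (tt q j) * v j a * ι (tt p j1) := by rw [h2]; ring
    have hιp : ι (tt p j1) ≠ 0 := (map_ne_zero ι).2 (hpt j1)
    have hιq : ι (tt q j1) ≠ 0 := (map_ne_zero ι).2 (hqt j1)
    have hSp0 : Sp' a0 ≠ 0 := ha0
    have hSq0 : Sq' a0 ≠ 0 := by
      intro h
      have h1 := hSpq a0
      rw [h, zero_mul] at h1
      exact (mul_ne_zero hSp0 hιq) h1
    have hpp : ∀ a b, Sp' a * pt ι v (tt p) b = Sp' b * pt ι v (tt p) a :=
      fun a b => hprop p hp _ a b
    have hqq : ∀ a b, Sq' a * pt ι v (tt q) b = Sq' b * pt ι v (tt q) a := by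
      intro a b
      have h1 := hprop q hq (lf (ff p) j1) a b
      rw [← hf] at h1
      exact h1
    have hxa : pt ι v (tt p) a0 ≠ 0 := by
      intro h
      apply hp0
      funext b
      have h1 := hpp a0 b
      rw [h, mul_zero] at h1
      exact (mul_eq_zero.1 h1).resolve_left hSp0
    have hya : pt ι v (tt q) a0 ≠ 0 := by
      intro h
      apply hq0
      funext b
      have h1 := hqq a0 b
      rw [h, mul_zero] at h1
      exact (mul_eq_zero.1 h1).resolve_left hSq0
    rw [hpm, hqm, Projectivization.mk_eq_mk_iff']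
    refine ⟨pt ι v (tt p) a0 / pt ι v (tt q) a0, ?_⟩
    funext b
    rw [Pi.smul_apply, smul_eq_mul]
    have h1 := hpp a0 b
    have h2 := hqq a0 b
    have h3 : pt ι v (tt p) b = Sp' b * pt ι v (tt p) a0 / Sp' a0 := by
      rw [← h1]; field_simp
    have h4 : pt ι v (tt q) b = Sq' b * pt ι v (tt q) a0 / Sq' a0 := by
      rw [← h2]; field_simp
    have h5 : Sq' b * Sp' a0 = Sp' b * Sq' a0 := by
      have h6 := hSpq b
      have h7 := hSpq a0
      have h8 : (Sq' b * Sp' a0) * (ι (tt p j1) * ι (tt q j1)) =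
          (Sp' b * Sq' a0) * (ι (tt p j1) * ι (tt q j1)) := by
        calc (Sq' b * Sp' a0) * (ι (tt p j1) * ι (tt q j1)) =
            (Sq' b * ι (tt p j1)) * (Sp' a0 * ι (tt q j1)) := by ring
          _ = (Sp' b * ι (tt q j1)) * (Sq' a0 * ι (tt p j1)) := by rw [h6, h7]
          _ = _ := by ring
      exact mul_right_cancel₀ (mul_ne_zero hιp hιq) h8
    rw [h3, h4]
    field_simp
    linear_combination h5
  refine (encard_le_of_data _ D hinj).trans ?_
  have hB1 : 1 ≤ Bm d r := by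
    unfold Bm
    refine Nat.one_le_pow _ _ (Nat.mul_pos (by positivity) ?_)
    unfold bnd
    positivity
  have hc : Fintype.card ((∀ i : Fin N, (Sp v (P i) → Sp v (P i)) ×
      (Sp v (P i) → Fin (Bm d r))) × (Option (Fin r) × (Fin r → Fin (Euni d r)))) ≤
      M0 N d r := by
    rw [Fintype.card_prod, Fintype.card_prod, Fintype.card_option, Fintype.card_fun,
      Fintype.card_fin, Fintype.card_fin]
    unfold M0
    refine Nat.mul_le_mul_right _ ?_
    rw [Fintype.card_pi]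
    have h1 : ∀ i ∈ (Finset.univ : Finset (Fin N)),
        Fintype.card ((Sp v (P i) → Sp v (P i)) × (Sp v (P i) → Fin (Bm d r))) ≤
        (((d + 1) ^ r) ^ ((d + 1) ^ r)) * Bm d r ^ ((d + 1) ^ r) := by
      intro i _
      have h2 : Fintype.card (Sp v (P i)) ≤ m := by
        rw [Fintype.card_coe]
        exact card_supp v (P i) (e0 i) d (he0 i) (hPe i)
      rw [Fintype.card_prod, Fintype.card_fun, Fintype.card_fun, Fintype.card_fin]
      refine Nat.mul_le_mul ?_ (Nat.pow_le_pow_right hB1 h2)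
      exact (Nat.pow_le_pow_left h2 _).trans (Nat.pow_le_pow_right hm1 h2)
    refine (Finset.prod_le_prod' h1).trans ?_
    rw [Finset.prod_const, Finset.card_univ, Fintype.card_fin]
  exact_mod_cast hc

end Pool.Agent.Y215.SP
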