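import Mathlib
import Pool.Agent.Y215.SP.Off
import Pool.Agent.TH409.SH.Conv

set_option autoImplicit false

/-! # Uniruled varieties have infinitely many points with multipliers which are roots of unity -/

namespace Pool.Agent.Y215.SP

open Finset MvPolynomial Pool.Agent.Helper259.AbsHt Pool.Agent.H533R3.SL

variable {n N r : ℕ}

theorem infinite_roots : {z : Qbar | ∃ m : ℕ, 0 < m ∧ z ^ m = 1}.Infinite := by
  have h1 : ∀ m : ℕ, ∃ z : Qbar, IsPrimitiveRoot z (m + 1) := fun m =>
    HasEnoughRootsOfUnity.exists_primitiveRoot Qbar (m + 1)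
  choose z hz using h1
  have hinj : Function.Injective z := by
    intro a b hab
    have h2 := (hz a).eq_orderOf
    have h3 := (hz b).eq_orderOf
    rw [hab] at h2
    omega
  refine (Set.infinite_range_of_injective hinj).mono ?_
  rintro _ ⟨m, rfl⟩
  exact ⟨m + 1, Nat.succ_pos m, (hz m).pow_eq_one⟩

theorem converse (k : Type) [Field k] [NumberField k]
    (P : Fin N → MvPolynomial (Fin (n + 1)) k) (hu : Uniruled (Ideal.span (Set.range P))) :
    ∃ r : ℕ, ∀ G : MvPolynomial (Fin (n + 1)) k, (∃ e, G.IsHomogeneous e) →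
      G ∉ Ideal.span (Set.range P) →
      ∃ (_ : Algebra k Qbar) (v : Fin r → Fin (n + 1) → Qbar), (torsOff P G v).Infinite := by
  classical
  obtain ⟨L, _, _, p, hp, hgen, hc⟩ := hu
  obtain ⟨M, hM⟩ : ∃ M : ℕ, ∀ i m, M ≤ m → (p i).coeff m = 0 := by
    refine ⟨∑ i, (p i).natDegree + 1, fun i m hm => Polynomial.coeff_eq_zero_of_natDegree_lt ?_⟩
    have : (p i).natDegree ≤ ∑ i, (p i).natDegree :=
      Finset.single_le_sum (f := fun i => (p i).natDegree) (fun _ _ => Nat.zero_le _)
        (Finset.mem_univ i)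
    omega
  refine ⟨M, fun G hG hGI => ?_⟩
  obtain ⟨K, _, _, _, v, hv1, ⟨i1, i2, hv2⟩, hv3⟩ :=
    Pool.Agent.TH409.SH.specialise (n := n) k L p (Set.range P)
      (fun F hF => hp F (Ideal.subset_span hF)) M hM hc G (hgen G hG hGI)
  -- an embedding in `Qbar`
  obtain ⟨φ⟩ : Nonempty (K →+* Qbar) := ⟨(IsAlgClosed.lift : K →ₐ[ℚ] Qbar).toRingHom⟩
  let _ : Algebra k Qbar := (φ.comp (algebraMap k K)).toAlgebra
  let w : Fin M → Fin (n + 1) → Qbar := fun j i => φ (v j i)
  refine ⟨inferInstance, w, ?_⟩
  let q : Fin (n + 1) → Polynomial Qbar := fun i =>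
    ∑ j : Fin M, Polynomial.C (w j i) * Polynomial.X ^ (j : ℕ)
  have hq : ∀ i, q i = (cur v (fun j => (j : ℕ)) i).map φ := by
    intro i
    unfold cur
    rw [Polynomial.map_sum]
    refine Finset.sum_congr rfl fun j _ => ?_
    rw [Polynomial.map_mul, Polynomial.map_pow, Polynomial.map_C, Polynomial.map_X]
  have hcomp : ∀ F : MvPolynomial (Fin (n + 1)) k, aeval q F =
      (aeval (cur v (fun j => (j : ℕ))) F : Polynomial K).map φ := by
    intro F
    have h1 : Polynomial.map φ (aeval (cur v (fun j => (j : ℕ))) F) =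
        MvPolynomial.eval₂ ((Polynomial.mapRingHom φ).comp (algebraMap k (Polynomial K)))
          (fun i => Polynomial.mapRingHom φ (cur v (fun j => (j : ℕ)) i)) F := by
      rw [MvPolynomial.aeval_def]
      exact MvPolynomial.hom_eval₂ F _ (Polynomial.mapRingHom φ) _
    rw [h1, MvPolynomial.aeval_def]
    have h2 : (Polynomial.mapRingHom φ).comp (algebraMap k (Polynomial K)) =
        algebraMap k (Polynomial Qbar) := by
      refine RingHom.ext fun a => ?_
      show Polynomial.map φ (algebraMap k (Polynomial K) a) = _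
      rw [Polynomial.algebraMap_apply, Polynomial.algebraMap_apply]
      show Polynomial.map φ (Polynomial.C _) = _
      rw [Polynomial.map_C]
      rfl
    rw [h2]
    congr 1
    funext i
    exact hq i
  have hP0 : ∀ i, aeval q (P i) = 0 := by
    intro i
    rw [hcomp, hv1 _ ⟨i, rfl⟩, Polynomial.map_zero]
  have hev : ∀ (F : MvPolynomial (Fin (n + 1)) k) (z : Qbar),
      aeval (fun i => (q i).eval z) F = (aeval q F : Polynomial Qbar).eval z := by
    intro F z
    have h1 : (aeval q F : Polynomial Qbar).eval z =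
        MvPolynomial.eval₂ ((Polynomial.evalRingHom z).comp (algebraMap k (Polynomial Qbar)))
          (fun i => Polynomial.evalRingHom z (q i)) F := by
      rw [MvPolynomial.aeval_def]
      exact MvPolynomial.hom_eval₂ F _ (Polynomial.evalRingHom z) _
    rw [h1, MvPolynomial.aeval_def]
    congr 1
    refine RingHom.ext fun a => ?_
    show _ = Polynomial.eval z (algebraMap k (Polynomial Qbar) a)
    rw [Polynomial.algebraMap_apply]
    show _ = Polynomial.eval z (Polynomial.C _)
    rw [Polynomial.eval_C]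
  have hq1 : ∀ i, (q i).eval 1 = φ ((cur v (fun j => (j : ℕ)) i).eval 1) := by
    intro i
    rw [hq i]
    have h1 : (1 : Qbar) = φ 1 := (map_one φ).symm
    rw [h1, Polynomial.eval_map, Polynomial.eval₂_at_apply]
  have hG1 : (aeval q G : Polynomial Qbar) ≠ 0 := by
    rw [hcomp]
    intro h
    apply hv3
    have h1 : (aeval (cur v (fun j => (j : ℕ))) G : Polynomial K) = 0 :=
      (Polynomial.map_eq_zero φ).1 h
    have h2 : aeval (fun i => (cur v (fun j => (j : ℕ)) i).eval 1) G =
        (aeval (cur v (fun j => (j : ℕ))) G : Polynomial K).eval 1 := by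
      have h3 : (aeval (cur v (fun j => (j : ℕ))) G : Polynomial K).eval 1 =
          MvPolynomial.eval₂ ((Polynomial.evalRingHom 1).comp (algebraMap k (Polynomial K)))
            (fun i => Polynomial.evalRingHom 1 (cur v (fun j => (j : ℕ)) i)) G := by
        rw [MvPolynomial.aeval_def]
        exact MvPolynomial.hom_eval₂ G _ (Polynomial.evalRingHom 1) _
      rw [h3, MvPolynomial.aeval_def]
      congr 1
      refine RingHom.ext fun a => ?_
      show _ = Polynomial.eval 1 (algebraMap k (Polynomial K) a)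
      rw [Polynomial.algebraMap_apply]
      show _ = Polynomial.eval 1 (Polynomial.C _)
      rw [Polynomial.eval_C]
    rw [h2, h1, Polynomial.eval_zero]
  have hnc : q i1 * Polynomial.C ((q i2).eval 1) ≠ q i2 * Polynomial.C ((q i1).eval 1) := by
    intro h
    apply hv2
    apply Polynomial.map_injective φ φ.injective
    rw [Polynomial.map_mul, Polynomial.map_mul, Polynomial.map_C, Polynomial.map_C, ← hq, ← hq,
      ← hq1, ← hq1]
    exact h
  -- roots of unity
  have hpoint : ∀ z : Qbar, (fun i => (q i).eval z) = fun a => ∑ j : Fin M, z ^ (j : ℕ) * w j a := by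
    intro z
    funext i
    show (∑ j : Fin M, Polynomial.C (w j i) * Polynomial.X ^ (j : ℕ)).eval z = _
    rw [Polynomial.eval_finsetSum]
    refine Finset.sum_congr rfl fun j _ => ?_
    rw [Polynomial.eval_mul, Polynomial.eval_C, Polynomial.eval_pow, Polynomial.eval_X, mul_comm]
  intro hfin
  -- the exceptional roots
  have hne0 : q i1 ≠ 0 ∨ q i2 ≠ 0 := by
    by_contra h
    push Not at h
    apply hnc
    rw [h.1, h.2]
  obtain ⟨i0, hi0⟩ : ∃ i0, q i0 ≠ 0 := hne0.elim (fun h => ⟨_, h⟩) (fun h => ⟨_, h⟩)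
  have hbad : {z : Qbar | (q i0 * aeval q G).eval z = 0}.Finite :=
    Polynomial.finite_setOfPred_isRoot (mul_ne_zero hi0 hG1)
  have hfib : ∀ y : Fin (n + 1) → Qbar, y ≠ 0 →
      {z : Qbar | ∀ i j, (q i).eval z * y j = (q j).eval z * y i}.Finite := by
    intro y hy
    have h1 : ∃ i j, q i * Polynomial.C (y j) ≠ q j * Polynomial.C (y i) := by
      by_contra h
      push Not at h
      obtain ⟨j0, hj0⟩ := Function.ne_iff.1 hy
      simp only [Pi.zero_apply] at hj0
      have h2 : ∀ i, q i = q j0 * Polynomial.C (y i / y j0) := by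
        intro i
        have h3 := h i j0
        have h4 : q i * Polynomial.C (y j0) * Polynomial.C (y j0)⁻¹ =
            q j0 * Polynomial.C (y i) * Polynomial.C (y j0)⁻¹ := by rw [h3]
        rw [mul_assoc, mul_assoc, ← Polynomial.C_mul, ← Polynomial.C_mul, mul_inv_cancel₀ hj0,
          Polynomial.C_1, mul_one, ← div_eq_mul_inv] at h4
        exact h4
      apply hnc
      rw [h2 i1, h2 i2]
      simp only [Polynomial.eval_mul, Polynomial.eval_C, Polynomial.C_mul]
      ring
    obtain ⟨i, j, hij⟩ := h1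
    refine (Polynomial.finite_setOfPred_isRoot (sub_ne_zero.2 hij)).subset ?_
    intro t ht
    have := ht i j
    show Polynomial.eval t _ = 0
    rw [Polynomial.eval_sub, Polynomial.eval_mul, Polynomial.eval_mul, Polynomial.eval_C,
      Polynomial.eval_C, this, sub_self]
  have hsub : {z : Qbar | ∃ m : ℕ, 0 < m ∧ z ^ m = 1} ⊆
      {z : Qbar | (q i0 * aeval q G).eval z = 0} ∪
      ⋃ p ∈ torsOff P G w, {z : Qbar | ∀ i j, (q i).eval z * p.rep j = (q j).eval z * p.rep i} := by
    rintro z ⟨m, hm, hz⟩
    by_cases h : (q i0 * aeval q G).eval z = 0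
    · exact Or.inl h
    · right
      rw [Polynomial.eval_mul] at h
      have h1 : (q i0).eval z ≠ 0 := left_ne_zero_of_mul h
      have h2 : (aeval q G : Polynomial Qbar).eval z ≠ 0 := right_ne_zero_of_mul h
      have h3 : (fun a => ∑ j : Fin M, z ^ (j : ℕ) * w j a) ≠ 0 := by
        intro h0
        apply h1
        have h4 : (q i0).eval z = _ := congrFun (hpoint z) i0
        rw [h4]
        exact congrFun h0 i0
      rw [Set.mem_iUnion₂]
      refine ⟨Projectivization.mk Qbar _ h3, ⟨fun j => z ^ (j : ℕ), ?_, ?_, ?_, h3, rfl⟩, ?_⟩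
      · intro j
        refine ⟨m, hm, ?_⟩
        rw [← pow_mul, mul_comm, pow_mul, hz, one_pow]
      · intro i
        rw [← hpoint, hev, hP0, Polynomial.eval_zero]
      · rw [← hpoint, hev]
        exact h2
      · obtain ⟨a, ha⟩ := Projectivization.exists_smul_eq_mk_rep Qbar _ h3
        intro i j
        rw [← ha]
        have h5 : (q i).eval z = _ := congrFun (hpoint z) i
        have h6 : (q j).eval z = _ := congrFun (hpoint z) j
        rw [h5, h6]
        show _ * ((a : Qbar) • (fun a => ∑ j : Fin M, z ^ (j : ℕ) * w j a)) j =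
          _ * ((a : Qbar) • (fun a => ∑ j : Fin M, z ^ (j : ℕ) * w j a)) i
        simp only [Pi.smul_apply, smul_eq_mul]
        ring
  exact infinite_roots ((hbad.union (hfin.biUnion fun p _ => hfib p.rep p.rep_nonzero)).subset hsub)

end Pool.Agent.Y215.SP
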